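import Pool.Agent.H46.Jac.Span

set_option autoImplicit false

namespace Pool.Agent.H46.Jac

theorem log_le_div_e {x : ℝ} (hx : 0 < x) : Real.log x ≤ x / Real.exp 1 := by
  have h := Real.log_le_sub_one_of_pos (div_pos hx (Real.exp_pos 1))
  rw [Real.log_div hx.ne' (Real.exp_pos 1).ne', Real.log_exp] at h
  linarith

theorem log_le_half {x : ℝ} (hx : 0 < x) : Real.log x ≤ x / 2 := by
  refine (log_le_div_e hx).trans ?_
  have h1 : (2 : ℝ) ≤ Real.exp 1 := by
    have := Real.add_one_le_exp (1 : ℝ)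
    linarith
  exact div_le_div_of_nonneg_left hx.le (by norm_num) h1

/-- `m ^ (d + 1 - m) ≤ (2 d / log d) ^ d`. -/
theorem pow_le (d m : ℕ) (hd : 2 ≤ d) (hm : m ≤ d + 1) :
    ((m : ℝ)) ^ (d + 1 - m) ≤ (2 * d / Real.log d) ^ d := by
  have hd' : (2 : ℝ) ≤ d := by exact_mod_cast hd
  have hd0 : (0 : ℝ) < d := by linarith
  set l := Real.log d with hl
  have hl0 : 0 < l := Real.log_pos (by linarith)
  set t := (d : ℝ) / l with ht
  have ht0 : 0 < t := div_pos hd0 hl0
  have ht2 : 2 ≤ t := by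
    rw [ht, le_div_iff₀ hl0]
    have := log_le_half hd0
    linarith
  have h2t : 2 * (d : ℝ) / l = 2 * t := by rw [ht]; ring
  rw [h2t]
  rcases Nat.eq_zero_or_pos m with h0 | hpos
  · subst h0
    rw [Nat.cast_zero, zero_pow (by omega)]
    positivity
  have hm1 : (1 : ℝ) ≤ m := by exact_mod_cast hpos
  by_cases hmt : (m : ℝ) ≤ 2 * t
  · calc (m : ℝ) ^ (d + 1 - m) ≤ (m : ℝ) ^ d := pow_le_pow_right₀ hm1 (by omega)
      _ ≤ (2 * t) ^ d := pow_le_pow_left₀ (by linarith) hmt d
  · push Not at hmt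
    have hm0 : (0 : ℝ) < m := by linarith
    have hm2 : (2 : ℝ) ≤ m := by linarith
    -- take logarithms
    rw [← Real.log_le_log_iff (by positivity) (by positivity), Real.log_pow, Real.log_pow]
    have hcast : ((d + 1 - m : ℕ) : ℝ) = d - (m - 1) := by
      rw [Nat.cast_sub hm]
      push_cast
      ring
    rw [hcast]
    -- `m = t y`
    set y := (m : ℝ) / t with hy
    have hy0 : 0 < y := div_pos hm0 ht0
    have hmy : (m : ℝ) = t * y := by rw [hy]; field_simp
    have hlogm : Real.log m = Real.log t + Real.log y := by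
      rw [hmy, Real.log_mul ht0.ne' hy0.ne']
    have hlt : Real.log t = l - Real.log l := by
      rw [ht, Real.log_div hd0.ne' hl0.ne']
    have hll : Real.log l ≤ l / 2 := log_le_half hl0
    have hlt2 : l / 2 ≤ Real.log t := by rw [hlt]; linarith
    have hy1 : 1 ≤ y := by
      rw [hy, le_div_iff₀ ht0]
      linarith
    have hlogy : 0 ≤ Real.log y := Real.log_nonneg hy1
    have h1 : (d : ℝ) * (y / 4) ≤ (m - 1) * Real.log m := by
      have h2 : (m : ℝ) / 2 ≤ m - 1 := by linarith
      have h3 : l / 2 ≤ Real.log m := by rw [hlogm]; linarith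
      have h4 : (m : ℝ) / 2 * (l / 2) ≤ (m - 1) * Real.log m :=
        mul_le_mul h2 h3 (by positivity) (by linarith)
      have h5 : (m : ℝ) / 2 * (l / 2) = d * (y / 4) := by
        rw [hmy, ht]
        field_simp
        ring
      linarith
    have h6 : Real.log y ≤ y / 4 + Real.log 2 := by
      have h7 : Real.log (y / 4) ≤ y / 4 / Real.exp 1 := log_le_div_e (by positivity)
      have h8 : Real.log (y / 4) = Real.log y - 2 * Real.log 2 := by
        rw [Real.log_div hy0.ne' (by norm_num)]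
        congr 1
        rw [show (4 : ℝ) = 2 ^ 2 by norm_num, Real.log_pow]
        norm_num
      have h9 : Real.log (y / 4) ≤ y / 4 - 1 := Real.log_le_sub_one_of_pos (by positivity)
      have h10 : Real.log 2 ≤ 1 := by
        have := Real.log_two_lt_d9
        linarith
      linarith
    have h11 : Real.log (2 * t) = Real.log 2 + Real.log t :=
      Real.log_mul (by norm_num) ht0.ne'
    rw [h11]
    have h12 : (d - (m - 1) : ℝ) * Real.log m = d * Real.log m - (m - 1) * Real.log m := by ring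
    rw [h12, hlogm]
    have h13 : (d : ℝ) * Real.log y ≤ d * (y / 4 + Real.log 2) :=
      mul_le_mul_of_nonneg_left h6 hd0.le
    rw [hlogm] at h1
    nlinarith [h1, h13]

theorem maxPow_le (d : ℕ) (hd : 2 ≤ d) : (maxPow d : ℝ) ≤ (2 * d / Real.log d) ^ d := by
  obtain ⟨m, hm, he⟩ := Finset.exists_mem_eq_sup (Finset.range (d + 2)) ⟨0, by simp⟩
    (fun m => m ^ (d + 1 - m))
  unfold maxPow
  rw [he]
  push_cast
  exact pow_le d m hd (by
    have := Finset.mem_range.1 hm
    omega)

theorem aDim_bound (d : ℕ) (hd : 2 ≤ d) : (aDim d : ℝ) ≤ (4608 * d / Real.log d) ^ d := by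
  have h1 := aDim_le d
  have h2 : (aDim d : ℝ) ≤ (48 : ℝ) ^ (2 * d) * maxPow d := by
    exact_mod_cast h1
  refine h2.trans ?_
  have h3 := maxPow_le d hd
  have h4 : (4608 * (d : ℝ) / Real.log d) ^ d =
      (48 : ℝ) ^ (2 * d) * (2 * d / Real.log d) ^ d := by
    rw [pow_mul, ← mul_pow]
    congr 1
    ring
  rw [h4]
  exact mul_le_mul_of_nonneg_left h3 (by positivity)

end Pool.Agent.H46.Jac
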