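import Pool.Agent.H46.Jac.Label

set_option autoImplicit false

open Equiv

namespace Pool.Agent.H46.Jac

variable {n : ℕ}

theorem exists_rank (N : Fin n → ℕ) (hN : Function.Injective N) :
    ∃ e : Perm (Fin n), ∀ v w, N v < N w → e v < e w := by
  classical
  have hlt : ∀ v, (Finset.univ.filter (fun u => N u < N v)).card < n := by
    intro v
    have : (Finset.univ.filter (fun u => N u < N v)) ⊂ Finset.univ := by
      rw [Finset.ssubset_univ_iff]
      intro h
      have := Finset.mem_univ v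
      rw [← h, Finset.mem_filter] at this
      exact lt_irrefl _ this.2
    simpa using Finset.card_lt_card this
  let f : Fin n → Fin n := fun v => ⟨_, hlt v⟩
  have hf : ∀ v w, N v < N w → f v < f w := by
    intro v w h
    show (Finset.univ.filter (fun u => N u < N v)).card <
      (Finset.univ.filter (fun u => N u < N w)).card
    apply Finset.card_lt_card
    rw [Finset.ssubset_iff_of_subset]
    · refine ⟨v, by simp [h], by simp⟩
    · intro u hu
      simp only [Finset.mem_filter, Finset.mem_univ, true_and] at hu ⊢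
      exact hu.trans h
  have hinj : Function.Injective f := by
    intro v w h
    by_contra hne
    rcases lt_or_gt_of_ne (fun h' => hne (hN h')) with h1 | h1
    · exact absurd h (ne_of_lt (hf _ _ h1))
    · exact absurd h.symm (ne_of_lt (hf _ _ h1))
  exact ⟨Equiv.ofBijective f (Finite.injective_iff_bijective.1 hinj), fun v w h => hf v w h⟩

theorem ch_vperm (up : Fin n → Fin 3) (r : Fin n) (e : Perm (Fin n)) (h : HE n) :
    Ch (fun v => up (e⁻¹ v)) (e r) (vperm e h) ↔ Ch up r h := by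
  show (e h.1 ≠ e r ∧ h.2 = up (e⁻¹ (e h.1))) ↔ (h.1 ≠ r ∧ h.2 = up h.1)
  rw [inv_ap, e.injective.ne_iff]

theorem Lab.transport {G : TriGraph n} {s : Perm (Fin n)} {cl : Fin n → Prop} {up : Fin n → Fin 3}
    {r : Fin n} {N : Fin n → ℕ} (L : Lab G s cl up r N) (e : Perm (Fin n))
    (he : ∀ v w, N v < N w → e v < e w) :
    Lab (G.conj (vperm e)) (e * s * e⁻¹) (fun v => cl (e⁻¹ v)) (fun v => up (e⁻¹ v)) (e r)
      (fun v => (v : ℕ)) := by
  have he' : ∀ v w, e v < e w → N v < N w := by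
    intro v w h
    by_contra h1
    rcases lt_or_eq_of_le (not_lt.1 h1) with h2 | h2
    · exact lt_asymm h (he _ _ h2)
    · rw [L.inj h2] at h
      exact lt_irrefl _ h
  have hse : ∀ v, (e * s * e⁻¹) (e v) = e (s v) := fun v => by simp
  have hpair : ∀ h, (G.conj (vperm e)).pair (vperm e h) = vperm e (G.pair h) :=
    fun h => pair_conj' _ _ _
  have hv : ∀ v i, ((e v, i) : HE n) = vperm e (v, i) := fun v i => rfl
  refine ⟨conn_vperm G L.conn e, L.npk.conj_vperm e, ⟨?_, ?_, ?_⟩, ?_, Fin.val_injective, ?_, ?_,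
    ?_, ?_, ?_⟩
  · intro c hc
    obtain ⟨c, rfl⟩ := e.surjective c
    rw [inv_ap] at hc
    rw [hse]
    exact fun h => L.closing.ne c hc (e.injective h)
  · intro x hx
    obtain ⟨x, rfl⟩ := e.surjective x
    rw [hse] at hx
    obtain ⟨c, hc, hcc⟩ := L.closing.ex x (fun h => hx (by rw [h]))
    refine ⟨e c, ?_, by rw [inv_ap]; exact hcc⟩
    rw [Perm.sameCycle_conj, inv_ap, inv_ap]
    exact hc
  · intro c c' hc hc' h
    rw [Perm.sameCycle_conj] at h
    exact e⁻¹.injective (L.closing.uniq _ _ hc hc' h)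
  · intro v hv
    obtain ⟨v, rfl⟩ := e.surjective v
    exact he _ _ (L.rmin v (fun h => hv (by rw [h])))
  · intro v w hv hw hlt
    obtain ⟨v, rfl⟩ := e.surjective v
    obtain ⟨w, rfl⟩ := e.surjective w
    have h1 := L.mono v w (fun h => hv (by rw [h])) (fun h => hw (by rw [h])) (he' _ _ hlt)
    simp only [inv_ap]
    have e1 : ((e v, up v) : HE n) = vperm e (v, up v) := rfl
    have e2 : ((e w, up w) : HE n) = vperm e (w, up w) := rfl
    rw [e1, e2, hpair, hpair]
    rcases h1 with h1 | ⟨h1, h2⟩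
    · left
      exact he _ _ h1
    · right
      exact ⟨congrArg e h1, h2⟩
  · intro h hh
    obtain ⟨h, rfl⟩ := (vperm e).surjective h
    rw [hpair, ch_vperm]
    rw [ch_vperm] at hh
    exact L.disj h hh
  · intro x hx hc
    obtain ⟨x, rfl⟩ := e.surjective x
    rw [inv_ap] at hc
    rw [hse] at hx
    have e1 : ((e x, 1) : HE n) = vperm e (x, 1) := rfl
    rw [e1, hpair, ch_vperm, ch_vperm]
    exact L.openTree x (fun h => hx (by rw [h])) hc
  · intro x hx
    obtain ⟨x, rfl⟩ := e.surjective x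
    rw [inv_ap] at hx
    have e1 : ((e x, 1) : HE n) = vperm e (x, 1) := rfl
    rw [e1, hpair, ch_vperm, ch_vperm]
    exact L.closeTree x hx
  · intro h h1 h2
    obtain ⟨h, rfl⟩ := (vperm e).surjective h
    rw [ch_vperm] at h1
    rw [hpair, ch_vperm] at h2
    rw [hpair]
    have e1 : ∀ h : HE n, (vperm e h).1 = e h.1 := fun _ => rfl
    have e2 : ∀ h : HE n, (vperm e h).2 = h.2 := fun _ => rfl
    rw [e1, e2, e1, e2, hse, hse]
    rcases L.rest h h1 h2 with h3 | h3 | ⟨x, hx, h3⟩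
    · left
      exact ⟨h3.1, fun h4 => h3.2 (e.injective h4)⟩
    · right; left
      exact ⟨h3.1, fun h4 => h3.2 (e.injective h4)⟩
    · right; right
      refine ⟨e x, by rw [inv_ap]; exact hx, ?_⟩
      have e3 : ((e x, 1) : HE n) = vperm e (x, 1) := rfl
      rw [e3, hpair]
      rcases h3 with h3 | h3
      · left; rw [h3]
      · right; rw [h3]

/-- Labelled with the natural numbering of the vertices. -/
abbrev LabN (G : TriGraph n) (s : Perm (Fin n)) (cl : Fin n → Prop) (up : Fin n → Fin 3)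
    (r : Fin n) : Prop := Lab G s cl up r (fun v => (v : ℕ))

/-- An order key on half-edges. -/
def hkey (h : HE n) : ℕ := 3 * (h.1 : ℕ) + (h.2 : ℕ)

theorem hkey_inj : Function.Injective (hkey (n := n)) := by
  intro g h hgh
  unfold hkey at hgh
  have h1 := g.2.2
  have h2 := h.2.2
  refine Prod.ext (Fin.ext ?_) (Fin.ext ?_) <;> omega

/-- `h` is a leg of the packing. -/
def SLeg (s : Perm (Fin n)) (h : HE n) : Prop := h.2 = 0 ∧ s h.1 ≠ h.1

/-- the upper half-edge of the edge removed from a cycle. -/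
def C1 (cl : Fin n → Prop) (h : HE n) : Prop := h.2 = 1 ∧ cl h.1

def Rst (G : TriGraph n) (cl : Fin n → Prop) (up : Fin n → Fin 3) (r : Fin n) (h : HE n) : Prop :=
  ¬ Ch up r h ∧ ¬ Ch up r (G.pair h) ∧ ¬ C1 cl h ∧ ¬ C1 cl (G.pair h)

def Src (G : TriGraph n) (s : Perm (Fin n)) (h : HE n) : Prop :=
  SLeg s (G.pair h) ∧ (SLeg s h → hkey h < hkey (G.pair h))

open Classical in
/-- The type of a half-edge. -/
noncomputable def ty (G : TriGraph n) (s : Perm (Fin n)) (cl : Fin n → Prop)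
    (up : Fin n → Fin 3) (r : Fin n) (h : HE n) : Fin 6 :=
  if Ch up r h then 0 else if Ch up r (G.pair h) then 1 else if C1 cl h then 2
  else if C1 cl (G.pair h) then 3 else if Src G s h then 4 else 5

section

variable {G : TriGraph n} {s : Perm (Fin n)} {cl : Fin n → Prop} {up : Fin n → Fin 3}
  {r : Fin n} (L : LabN G s cl up r)

include L

theorem c1_notCh {h : HE n} (hc : C1 cl h) : ¬ Ch up r h ∧ ¬ Ch up r (G.pair h) := by
  obtain ⟨x, i⟩ := h
  obtain ⟨rfl, hx⟩ : i = 1 ∧ cl x := hc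
  exact L.closeTree x hx

theorem c1_not_c1 {h : HE n} (hc : C1 cl h) : ¬ C1 cl (G.pair h) := by
  obtain ⟨x, i⟩ := h
  obtain ⟨rfl, hx⟩ : i = 1 ∧ cl x := hc
  rw [L.npk x (L.closing.ne x hx)]
  rintro ⟨h1, -⟩
  exact absurd (show (2 : Fin 3) = 1 from h1) (by decide)

theorem ty0 (h : HE n) : ty G s cl up r h = 0 ↔ Ch up r h := by
  unfold ty
  split_ifs <;> simp_all

theorem ty1 (h : HE n) : ty G s cl up r h = 1 ↔ Ch up r (G.pair h) := by
  unfold ty
  split_ifs with h1
  · simp only [Fin.isValue, zero_ne_one, false_iff]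
    exact L.disj h h1
  all_goals simp_all

theorem ty2 (h : HE n) : ty G s cl up r h = 2 ↔ C1 cl h := by
  have := @c1_notCh n G s cl up r L h
  unfold ty
  split_ifs with h1 h2 h3 h4 h5 <;> simp_all <;> decide

theorem ty3 (h : HE n) : ty G s cl up r h = 3 ↔ C1 cl (G.pair h) := by
  have h6 := @c1_notCh n G s cl up r L (G.pair h)
  rw [G.invol] at h6
  have h7 := @c1_not_c1 n G s cl up r L h
  unfold ty
  split_ifs with h1 h2 h3 h4 h5 <;> simp_all <;> decide

theorem rst_dich {h : HE n} (hr : Rst G cl up r h) :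
    (Src G s h ∧ ¬ Src G s (G.pair h)) ∨ (¬ Src G s h ∧ Src G s (G.pair h)) := by
  have h1 : SLeg s h ∨ SLeg s (G.pair h) := by
    rcases L.rest h hr.1 hr.2.1 with h1 | h1 | ⟨x, hx, h1⟩
    · exact Or.inl h1
    · exact Or.inr h1
    · exfalso
      rcases h1 with h1 | h1
      · exact hr.2.2.1 (by rw [h1]; exact ⟨rfl, hx⟩)
      · exact hr.2.2.2 (by rw [h1, G.invol]; exact ⟨rfl, hx⟩)
  have hne : hkey h ≠ hkey (G.pair h) := fun h2 => G.fixfree h (hkey_inj h2).symm
  unfold Src
  rw [G.invol]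
  by_cases a : SLeg s h <;> by_cases b : SLeg s (G.pair h)
  · rcases lt_or_gt_of_ne hne with h2 | h2
    · left
      exact ⟨⟨b, fun _ => h2⟩, fun h3 => lt_asymm h2 (h3.2 b)⟩
    · right
      exact ⟨fun h3 => lt_asymm h2 (h3.2 a), ⟨a, fun _ => h2⟩⟩
  · right
    exact ⟨fun h3 => b h3.1, ⟨a, fun h3 => (b h3).elim⟩⟩
  · left
    exact ⟨⟨b, fun h3 => (a h3).elim⟩, fun h3 => a h3.1⟩
  · exact absurd h1 (by tauto)

theorem ty4 (h : HE n) : ty G s cl up r h = 4 ↔ Rst G cl up r h ∧ Src G s h := by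
  unfold ty Rst
  split_ifs with h1 h2 h3 h4 h5 <;> simp_all <;> decide

theorem ty5 (h : HE n) : ty G s cl up r h = 5 ↔ Rst G cl up r h ∧ Src G s (G.pair h) := by
  constructor
  · intro h5
    have hr : Rst G cl up r h := by
      refine ⟨fun h1 => ?_, fun h1 => ?_, fun h1 => ?_, fun h1 => ?_⟩
      · rw [(ty0 L h).2 h1] at h5; exact absurd h5 (by decide)
      · rw [(ty1 L h).2 h1] at h5; exact absurd h5 (by decide)
      · rw [(ty2 L h).2 h1] at h5; exact absurd h5 (by decide)
      · rw [(ty3 L h).2 h1] at h5; exact absurd h5 (by decide)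
    refine ⟨hr, ?_⟩
    rcases rst_dich L hr with h1 | h1
    · rw [(ty4 L h).2 ⟨hr, h1.1⟩] at h5; exact absurd h5 (by decide)
    · exact h1.2
  · rintro ⟨hr, hs⟩
    have h1 : ¬ Src G s h := by
      rcases rst_dich L hr with h1 | h1
      · exact absurd hs h1.2
      · exact h1.1
    unfold ty
    rw [if_neg hr.1, if_neg hr.2.1, if_neg hr.2.2.1, if_neg hr.2.2.2, if_neg h1]

theorem rst_pair {h : HE n} (hr : Rst G cl up r h) : Rst G cl up r (G.pair h) := by
  obtain ⟨h1, h2, h3, h4⟩ := hr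
  exact ⟨h2, by rwa [G.invol], h4, by rwa [G.invol]⟩

/-- the involution on types -/
theorem ty_pair (h : HE n) : ty G s cl up r (G.pair h) =
    (![1, 0, 3, 2, 5, 4] : Fin 6 → Fin 6) (ty G s cl up r h) := by
  have key : ∀ t : Fin 6, ty G s cl up r h = t →
      ty G s cl up r (G.pair h) = (![1, 0, 3, 2, 5, 4] : Fin 6 → Fin 6) t := by
    intro t ht
    fin_cases t
    · have h1 := (ty0 L h).1 ht
      exact (ty1 L _).2 (by rwa [G.invol])
    · have h1 := (ty1 L h).1 ht
      exact (ty0 L _).2 h1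
    · have h1 := (ty2 L h).1 ht
      exact (ty3 L _).2 (by rwa [G.invol])
    · have h1 := (ty3 L h).1 ht
      exact (ty2 L _).2 h1
    · have h1 := (ty4 L h).1 ht
      exact (ty5 L _).2 ⟨rst_pair L h1.1, by rw [G.invol]; exact h1.2⟩
    · have h1 := (ty5 L h).1 ht
      exact (ty4 L _).2 ⟨rst_pair L h1.1, h1.2⟩
  exact key _ rfl

end

end Pool.Agent.H46.Jac
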