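import Pool.Agent.H46.Jac.Decode

set_option autoImplicit false

open Equiv

namespace Pool.Agent.H46.Jac

variable {n : ℕ}

open Classical in
/-- the chosen vertex of the cycle of `x` -/
noncomputable def cv (s : Perm (Fin n)) (cl : Fin n → Prop) (x : Fin n) : Fin n :=
  if hx : ∃ c, s.SameCycle x c ∧ cl c then hx.choose else x

theorem cv_spec {s : Perm (Fin n)} {cl : Fin n → Prop} (hcl : Closing s cl) {x : Fin n}
    (hx : s x ≠ x) : s.SameCycle x (cv s cl x) ∧ cl (cv s cl x) := by
  have h := hcl.ex x hx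
  unfold cv
  rw [dif_pos h]
  exact h.choose_spec

abbrev Code (n : ℕ) : Type := ((HE n → Fin 6) × (Fin n → Bool)) × (HE n → Fin n)

open Classical in
noncomputable def codeOf (G : TriGraph n) (s : Perm (Fin n)) (cl : Fin n → Prop)
    (up : Fin n → Fin 3) (r : Fin n) : Code n :=
  ((ty G s cl up r, fun v => decide (s v ≠ v)),
    fun h => if ty G s cl up r h = 4 then cv s cl (G.pair h).1 else h.1)

/-- the number of marked cycles read off the types -/
def mOf (t : HE n → Fin 6) : ℕ := (Finset.univ.filter (fun x : Fin n => t (x, 1) = 2)).card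

/-- the number of sources -/
def jOf (t : HE n → Fin 6) : ℕ := (Finset.univ.filter (fun h : HE n => t h = 4)).card

/-- The possible types of the three half-edges at a vertex, on a cycle (`true`) or not. -/
def pat (p : (Fin 3 → Fin 6) × Bool) : Bool :=
  (if p.2 then (p.1 0 = 0 ∨ p.1 0 = 1 ∨ p.1 0 = 4 ∨ p.1 0 = 5) ∧
      (p.1 1 = 0 ∨ p.1 1 = 1 ∨ p.1 1 = 2) ∧ (p.1 2 = 0 ∨ p.1 2 = 1 ∨ p.1 2 = 3)
    else (∀ i, p.1 i = 0 ∨ p.1 i = 1 ∨ p.1 i = 4)) ∧
  (∀ i j, p.1 i = 0 → p.1 j = 0 → i = j)

def trueSet {α : Type} [Fintype α] (f : α → Bool) : Finset α :=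
  Finset.univ.filter (fun p => f p = true)

theorem mem_trueSet {α : Type} [Fintype α] (f : α → Bool) (p : α) :
    p ∈ trueSet f ↔ f p = true := by
  simp [trueSet]

/-- the possible patterns -/
@[irreducible]
def patSet : Finset ((Fin 3 → Fin 6) × Bool) := trueSet pat

theorem mem_patSet (p : (Fin 3 → Fin 6) × Bool) : p ∈ patSet ↔ pat p = true := by
  unfold patSet
  exact mem_trueSet pat p

theorem card_pat : patSet.card = 48 := by
  decide +kernel

/-- The possible types. -/
def patF (n : ℕ) : Finset ((HE n → Fin 6) × (Fin n → Bool)) :=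
  Finset.univ.filter (fun c => ∀ v : Fin n, pat (fun i => c.1 (v, i), c.2 v) = true)

theorem card_patF (n : ℕ) : (patF n).card ≤ 48 ^ n := by
  have h1 : (Fintype.piFinset (fun _ : Fin n => patSet)).card = 48 ^ n := by
    rw [Fintype.card_piFinset, Finset.prod_const, card_pat, Finset.card_univ, Fintype.card_fin]
  rw [← h1]
  refine Finset.card_le_card_of_injOn (fun c v => (fun i => c.1 (v, i), c.2 v)) ?_ ?_
  · intro c hc
    have h2 := (Finset.mem_filter.1 (Finset.mem_coe.1 hc)).2
    rw [Finset.mem_coe, Fintype.mem_piFinset]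
    intro v
    show (fun i => c.1 (v, i), c.2 v) ∈ patSet
    rw [mem_patSet]
    exact h2 v
  · intro c _ c' _ he
    refine Prod.ext ?_ ?_
    · funext h
      exact congrFun (congrArg Prod.fst (congrFun he h.1)) h.2
    · funext v
      exact congrArg Prod.snd (congrFun he v)

/-- The possible codes. -/
def codes (d : ℕ) : Finset (Code (2 * d)) :=
  ((patF (2 * d)).filter (fun c : (HE (2 * d) → Fin 6) × (Fin (2 * d) → Bool) =>
    mOf c.1 + jOf c.1 = d + 1)).biUnion (fun c =>
      (Fintype.piFinset (fun h : HE (2 * d) =>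
        if c.1 h = 4 then Finset.univ.filter (fun x : Fin (2 * d) => c.1 (x, 1) = 2)
        else {h.1})).image (fun f => (c, f)))

theorem card_pi (t : HE n → Fin 6) : (Fintype.piFinset (fun h : HE n =>
    if t h = 4 then Finset.univ.filter (fun x : Fin n => t (x, 1) = 2) else {h.1})).card =
      mOf t ^ jOf t := by
  rw [Fintype.card_piFinset]
  have h1 : ∀ h : HE n, (if t h = 4 then Finset.univ.filter (fun x : Fin n => t (x, 1) = 2)
      else ({h.1} : Finset (Fin n))).card = if t h = 4 then mOf t else 1 := by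
    intro h
    split_ifs
    · rfl
    · simp
  rw [Finset.prod_congr rfl (fun h _ => h1 h), Finset.prod_ite, Finset.prod_const,
    Finset.prod_const_one, mul_one]
  rfl

/-- The maximum of `m ^ (d + 1 - m)`. -/
def maxPow (d : ℕ) : ℕ := (Finset.range (d + 2)).sup (fun m => m ^ (d + 1 - m))

theorem card_codes (d : ℕ) : (codes d).card ≤ 48 ^ (2 * d) * maxPow d := by
  unfold codes
  refine Finset.card_biUnion_le.trans ?_
  have h1 : ∀ c ∈ (patF (2 * d)).filter (fun c : (HE (2 * d) → Fin 6) × (Fin (2 * d) → Bool) =>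
      mOf c.1 + jOf c.1 = d + 1), ((Fintype.piFinset (fun h : HE (2 * d) =>
        if c.1 h = 4 then Finset.univ.filter (fun x : Fin (2 * d) => c.1 (x, 1) = 2)
        else {h.1})).image (fun f => ((c, f) : Code (2 * d)))).card ≤ maxPow d := by
    intro c hc
    refine Finset.card_image_le.trans ?_
    rw [card_pi]
    have h2 := (Finset.mem_filter.1 hc).2
    have h3 : jOf c.1 = d + 1 - mOf c.1 := by omega
    rw [h3]
    exact Finset.le_sup (f := fun m => m ^ (d + 1 - m)) (Finset.mem_range.2 (by omega))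
  refine (Finset.sum_le_card_nsmul _ _ _ h1).trans ?_
  rw [smul_eq_mul]
  refine Nat.mul_le_mul_right _ ?_
  exact (Finset.card_filter_le _ _).trans (card_patF _)

section

variable {G : TriGraph n} {s : Perm (Fin n)} {cl : Fin n → Prop} {up : Fin n → Fin 3}
  {r : Fin n}

theorem count_types (L : LabN G s cl up r) :
    2 * (mOf (ty G s cl up r) + jOf (ty G s cl up r)) = n + 2 := by
  classical
  set t := ty G s cl up r with ht
  let F : Fin 6 → Finset (HE n) := fun a => Finset.univ.filter (fun h => t h = a)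
  have hpair : ∀ a b : Fin 6, (∀ h, t h = a → t (G.pair h) = b) → (∀ h, t h = b → t (G.pair h) = a) →
      (F a).card = (F b).card := by
    intro a b h1 h2
    refine Finset.card_bij (fun h _ => G.pair h) ?_ ?_ ?_
    · intro h hh
      exact Finset.mem_filter.2 ⟨Finset.mem_univ _, h1 h (Finset.mem_filter.1 hh).2⟩
    · intro h _ h' _ he
      exact G.pair.injective he
    · intro h hh
      refine ⟨G.pair h, Finset.mem_filter.2 ⟨Finset.mem_univ _, h2 h (Finset.mem_filter.1 hh).2⟩,
        G.invol h⟩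
  have hp := ty_pair L
  have e01 : (F 0).card = (F 1).card :=
    hpair 0 1 (fun h hh => by rw [ht] at hh ⊢; rw [hp, hh]; rfl)
      (fun h hh => by rw [ht] at hh ⊢; rw [hp, hh]; rfl)
  have e23 : (F 2).card = (F 3).card :=
    hpair 2 3 (fun h hh => by rw [ht] at hh ⊢; rw [hp, hh]; rfl)
      (fun h hh => by rw [ht] at hh ⊢; rw [hp, hh]; rfl)
  have e45 : (F 4).card = (F 5).card :=
    hpair 4 5 (fun h hh => by rw [ht] at hh ⊢; rw [hp, hh]; rfl)
      (fun h hh => by rw [ht] at hh ⊢; rw [hp, hh]; rfl)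
  have h0 : (F 0).card = n - 1 := by
    have h1 : (F 0).card = (Finset.univ.filter (fun v : Fin n => v ≠ r)).card := by
      refine Finset.card_bij (fun h _ => h.1) ?_ ?_ ?_
      · intro h hh
        have h2 := (ty0 L h).1 (Finset.mem_filter.1 hh).2
        exact Finset.mem_filter.2 ⟨Finset.mem_univ _, h2.1⟩
      · intro h hh h' hh' he
        have h2 := (ty0 L h).1 (Finset.mem_filter.1 hh).2
        have h3 := (ty0 L h').1 (Finset.mem_filter.1 hh').2
        refine Prod.ext he ?_
        rw [h2.2, h3.2, he]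
      · intro v hv
        refine ⟨(v, up v), Finset.mem_filter.2 ⟨Finset.mem_univ _, ?_⟩, rfl⟩
        exact (ty0 L _).2 ⟨(Finset.mem_filter.1 hv).2, rfl⟩
    rw [h1, Finset.filter_ne', Finset.card_erase_of_mem (Finset.mem_univ _), Finset.card_univ,
      Fintype.card_fin]
  have h2 : (F 2).card = mOf t := by
    refine Finset.card_bij (fun h _ => h.1) ?_ ?_ ?_
    · intro h hh
      have h3 := (Finset.mem_filter.1 hh).2
      have h4 := (ty2 L h).1 h3
      refine Finset.mem_filter.2 ⟨Finset.mem_univ _, ?_⟩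
      rw [← h4.1]
      exact h3
    · intro h hh h' hh' he
      have h3 := (ty2 L h).1 (Finset.mem_filter.1 hh).2
      have h4 := (ty2 L h').1 (Finset.mem_filter.1 hh').2
      refine Prod.ext he ?_
      rw [h3.1, h4.1]
    · intro x hx
      exact ⟨(x, 1), Finset.mem_filter.2 ⟨Finset.mem_univ _, (Finset.mem_filter.1 hx).2⟩, rfl⟩
  have h4 : (F 4).card = jOf t := rfl
  have hsum : (Finset.univ : Finset (HE n)).card = ∑ a : Fin 6, (F a).card :=
    Finset.card_eq_sum_card_fiberwise (fun h _ => Finset.mem_univ (t h))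
  rw [Fin.sum_univ_six, Finset.card_univ, Fintype.card_prod, Fintype.card_fin,
    Fintype.card_fin] at hsum
  have hn : 0 < n := by
    rcases Nat.eq_zero_or_pos n with h | h
    · subst h; exact r.elim0
    · exact h
  omega

theorem ty_pat (L : LabN G s cl up r) (v : Fin n) :
    pat (fun i => ty G s cl up r (v, i), decide (s v ≠ v)) = true := by
  have h0 : ∀ i j, ty G s cl up r (v, i) = 0 → ty G s cl up r (v, j) = 0 → i = j := by
    intro i j hi hj
    have h1 := ((ty0 L _).1 hi).2
    have h2 := ((ty0 L _).1 hj).2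
    exact h1.trans h2.symm
  by_cases hv : s v = v
  · have h1 : ∀ i, ty G s cl up r (v, i) = 0 ∨ ty G s cl up r (v, i) = 1 ∨
        ty G s cl up r (v, i) = 4 := by
      intro i
      have n2 : ty G s cl up r (v, i) ≠ 2 := fun h => L.closing.ne v ((ty2 L _).1 h).2 hv
      have n3 : ty G s cl up r (v, i) ≠ 3 := by
        intro h
        obtain ⟨x, j, hx⟩ : ∃ x j, G.pair (v, i) = (x, j) := ⟨_, _, rfl⟩
        have h1 := (ty3 L _).1 h
        rw [hx] at h1
        obtain ⟨rfl, hcx⟩ : j = 1 ∧ cl x := h1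
        have h2 := L.npk x (L.closing.ne x hcx)
        rw [← hx, G.invol] at h2
        have h3 : v = s x := congrArg Prod.fst h2
        rw [h3] at hv
        exact L.closing.ne x hcx (s.injective hv)
      have n5 : ty G s cl up r (v, i) ≠ 5 := by
        intro h
        have h1 := ((ty5 L _).1 h).2.1
        rw [G.invol] at h1
        exact h1.2 hv
      revert n2 n3 n5
      generalize ty G s cl up r (v, i) = t
      revert t
      decide
    unfold pat
    simp only [hv, ne_eq, not_true_eq_false, decide_false, Bool.false_eq_true, if_false,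
      decide_eq_true_eq]
    exact ⟨h1, h0⟩
  · have hnr1 : ¬ Rst G cl up r (v, 1) := by
      intro hr
      by_cases hc : cl v
      · exact hr.2.2.1 ⟨rfl, hc⟩
      · rcases L.openTree v hv hc with h | h
        · exact hr.1 h
        · exact hr.2.1 h
    have hnr2 : ¬ Rst G cl up r (v, 2) := by
      intro hr
      have hu : s (s⁻¹ v) ≠ s⁻¹ v := by
        intro h
        rw [ap_inv] at h
        exact hv (Perm.inv_eq_iff_eq.1 h.symm).symm
      have h2 := L.npk (s⁻¹ v) hu
      rw [ap_inv] at h2
      have hr' := rst_pair L hr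
      rw [← h2, G.invol] at hr'
      by_cases hc : cl (s⁻¹ v)
      · exact hr'.2.2.1 ⟨rfl, hc⟩
      · rcases L.openTree _ hu hc with h | h
        · exact hr'.1 h
        · exact hr'.2.1 h
    have a1 : ty G s cl up r (v, 1) ≠ 4 := fun h => hnr1 ((ty4 L _).1 h).1
    have a2 : ty G s cl up r (v, 1) ≠ 5 := fun h => hnr1 ((ty5 L _).1 h).1
    have a3 : ty G s cl up r (v, 2) ≠ 4 := fun h => hnr2 ((ty4 L _).1 h).1
    have a4 : ty G s cl up r (v, 2) ≠ 5 := fun h => hnr2 ((ty5 L _).1 h).1
    have b1 : ∀ i, i ≠ 1 → ty G s cl up r (v, i) ≠ 2 := fun i hi h => hi ((ty2 L _).1 h).1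
    have b2 : ∀ i, i ≠ 2 → ty G s cl up r (v, i) ≠ 3 := by
      intro i hi h
      obtain ⟨x, j, hx⟩ : ∃ x j, G.pair (v, i) = (x, j) := ⟨_, _, rfl⟩
      have h1 := (ty3 L _).1 h
      rw [hx] at h1
      obtain ⟨rfl, hcx⟩ : j = 1 ∧ cl x := h1
      have h2 := L.npk x (L.closing.ne x hcx)
      rw [← hx, G.invol] at h2
      exact hi (congrArg Prod.snd h2)
    have c0 := b1 0 (by decide)
    have c1 := b2 0 (by decide)
    have c2 := b2 1 (by decide)
    have c3 := b1 2 (by decide)
    unfold pat
    simp only [hv, ne_eq, not_false_eq_true, decide_true, if_true, decide_eq_true_eq]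
    refine ⟨⟨?_, ?_, ?_⟩, h0⟩
    · revert c0 c1
      generalize ty G s cl up r (v, 0) = t
      revert t
      decide
    · revert a1 a2 c2
      generalize ty G s cl up r (v, 1) = t
      revert t
      decide
    · revert a3 a4 c3
      generalize ty G s cl up r (v, 2) = t
      revert t
      decide

theorem codeOf_mem {d : ℕ} {G : TriGraph (2 * d)} {s : Perm (Fin (2 * d))}
    {cl : Fin (2 * d) → Prop} {up : Fin (2 * d) → Fin 3} {r : Fin (2 * d)}
    (L : LabN G s cl up r) : codeOf G s cl up r ∈ codes d := by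
  classical
  unfold codes
  rw [Finset.mem_biUnion]
  refine ⟨(codeOf G s cl up r).1, ?_, ?_⟩
  · rw [Finset.mem_filter]
    refine ⟨Finset.mem_filter.2 ⟨Finset.mem_univ _, fun v => ?_⟩, ?_⟩
    · convert ty_pat L v
      · rfl
      · exact decide_eq_decide.2 Iff.rfl
    have := count_types L
    show mOf (ty G s cl up r) + jOf (ty G s cl up r) = d + 1
    omega
  · rw [Finset.mem_image]
    refine ⟨(codeOf G s cl up r).2, ?_, rfl⟩
    rw [Fintype.mem_piFinset]
    intro h
    show (if ty G s cl up r h = 4 then cv s cl (G.pair h).1 else h.1) ∈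
      (if ty G s cl up r h = 4 then
        Finset.univ.filter (fun x : Fin (2 * d) => ty G s cl up r (x, 1) = 2) else {h.1})
    by_cases h4 : ty G s cl up r h = 4
    · rw [if_pos h4, if_pos h4, Finset.mem_filter]
      refine ⟨Finset.mem_univ _, ?_⟩
      rw [ty2 L]
      have h5 := ((ty4 L h).1 h4).2.1
      exact ⟨rfl, (cv_spec L.closing h5.2).2⟩
    · rw [if_neg h4, if_neg h4, Finset.mem_singleton]

theorem decode_code {G G' : TriGraph n} {s s' : Perm (Fin n)} {cl cl' : Fin n → Prop}
    {up up' : Fin n → Fin 3} {r r' : Fin n} (L : LabN G s cl up r) (L' : LabN G' s' cl' up' r')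
    (hc : codeOf G s cl up r = codeOf G' s' cl' up' r') :
    s' = s ∧ ∃ π : Perm (Fin n), (∀ x, s.SameCycle x (π x)) ∧ G' = G.conj (legs π) := by
  classical
  have h1 : ty G s cl up r = ty G' s' cl' up' r' := congrArg (fun c => c.1.1) hc
  have h2 : (fun v => decide (s v ≠ v)) = (fun v => decide (s' v ≠ v)) :=
    congrArg (fun c => c.1.2) hc
  have h3 : (fun h => if ty G s cl up r h = 4 then cv s cl (G.pair h).1 else h.1) =
      (fun h => if ty G' s' cl' up' r' h = 4 then cv s' cl' (G'.pair h).1 else h.1) :=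
    congrArg (fun c => c.2) hc
  refine decode L L' (fun h => congrFun h1 h) (fun v => ?_) (fun h hh c c' a1 a2 a3 a4 => ?_)
  · have := congrFun h2 v
    exact decide_eq_decide.1 this
  · have h4 := congrFun h3 h
    have hh' : ty G' s' cl' up' r' h = 4 := by rw [← h1]; exact hh
    rw [if_pos hh, if_pos hh'] at h4
    have b1 := cv_spec L.closing (((ty4 L h).1 hh).2.1).2
    have b2 := cv_spec L'.closing (((ty4 L' h).1 hh').2.1).2
    have c1 := L.closing.uniq _ _ a2 b1.2 (a1.symm.trans b1.1)
    have c2 := L'.closing.uniq _ _ a4 b2.2 (a3.symm.trans b2.1)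
    rw [c1, c2, h4]

end

end Pool.Agent.H46.Jac
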