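import Pool.Agent.H46.Jac.Code

set_option autoImplicit false

open Equiv

namespace Pool.Agent.H46.Jac

variable {n : ℕ}

theorem rmin_eq {G G' : TriGraph n} {s s' : Perm (Fin n)} {cl cl' : Fin n → Prop}
    {up up' : Fin n → Fin 3} {r r' : Fin n} (L : LabN G s cl up r) (L' : LabN G' s' cl' up' r') :
    r = r' := by
  by_contra h
  have h1 := L.rmin r' (fun h' => h h'.symm)
  have h2 := L'.rmin r h
  exact lt_asymm h1 h2

/-- Two strictly increasing maps with the same range agree. -/
theorem mono_unique (P : Fin n → Prop) (a a' : Fin n → ℕ)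
    (ha : ∀ v w, P v → P w → v < w → a v < a w) (ha' : ∀ v w, P v → P w → v < w → a' v < a' w)
    (h1 : ∀ v, P v → ∃ w, P w ∧ a v = a' w) (h2 : ∀ v, P v → ∃ w, P w ∧ a' v = a w) :
    ∀ v, P v → a v = a' v := by
  have key : ∀ m : ℕ, ∀ v : Fin n, (v : ℕ) = m → P v → a v = a' v := by
    intro m
    induction m using Nat.strong_induction_on with
    | _ m ih =>
      intro v hv hP
      obtain ⟨w, hw, e1⟩ := h1 v hP
      obtain ⟨u, hu, e2⟩ := h2 v hP
      apply le_antisymm
      · -- a v ≤ a' v
        rw [e2]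
        rcases lt_trichotomy u v with h | h | h
        · have h3 := ih u (by rw [← hv]; exact h) u rfl hu
          have h4 := ha' u v hu hP h
          omega
        · rw [h]
        · exact le_of_lt (ha v u hP hu h)
      · rw [e1]
        rcases lt_trichotomy w v with h | h | h
        · have h3 := ih w (by rw [← hv]; exact h) w rfl hw
          have h4 := ha w v hw hP h
          omega
        · rw [h]
        · exact le_of_lt (ha' v w hP hw h)
  intro v hv
  exact key v v rfl hv

section

variable {G G' : TriGraph n} {s s' : Perm (Fin n)} {cl cl' : Fin n → Prop}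
  {up up' : Fin n → Fin 3} {r r' : Fin n}

theorem Lab.keymono (L : LabN G s cl up r) : ∀ v w, v ≠ r → w ≠ r → v < w →
    hkey (G.pair (v, up v)) < hkey (G.pair (w, up w)) := by
  intro v w hv hw h
  unfold hkey
  have h2 := (G.pair (v, up v)).2.2
  rcases L.mono v w hv hw h with h1 | ⟨h1, h3⟩
  · omega
  · rw [h1]
    have h4 : ((G.pair (v, up v)).2 : ℕ) < ((G.pair (w, up w)).2 : ℕ) := h3
    omega

theorem decode (L : LabN G s cl up r) (L' : LabN G' s' cl' up' r')
    (hty : ∀ h, ty G s cl up r h = ty G' s' cl' up' r' h)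
    (hS : ∀ v, s v ≠ v ↔ s' v ≠ v)
    (hf : ∀ h, ty G s cl up r h = 4 → ∀ c c', s.SameCycle (G.pair h).1 c → cl c →
      s'.SameCycle (G'.pair h).1 c' → cl' c' → c = c') :
    s' = s ∧ ∃ π : Perm (Fin n), (∀ x, s.SameCycle x (π x)) ∧ G' = G.conj (legs π) := by
  classical
  have hr := rmin_eq L L'
  subst hr
  have hch : ∀ h, Ch up r h ↔ Ch up' r h := by
    intro h
    rw [← ty0 L, ← ty0 L', hty]
  have hup : ∀ v, v ≠ r → up v = up' v := by
    intro v hv
    exact ((hch (v, up v)).1 ⟨hv, rfl⟩).2
  -- tree half-edges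
  have htree : ∀ v, v ≠ r → G.pair (v, up v) = G'.pair (v, up v) := by
    have h1 := mono_unique (fun v : Fin n => v ≠ r) (fun v => hkey (G.pair (v, up v)))
      (fun v => hkey (G'.pair (v, up' v))) L.keymono L'.keymono ?_ ?_
    · intro v hv
      have h2 := hkey_inj (h1 v hv)
      rw [h2, hup v hv]
    · intro v hv
      have h2 : ty G s cl up r (G.pair (v, up v)) = 1 := by
        rw [ty1 L, G.invol]; exact ⟨hv, rfl⟩
      rw [hty, ty1 L'] at h2
      refine ⟨(G'.pair (G.pair (v, up v))).1, h2.1, ?_⟩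
      have h3 : (((G'.pair (G.pair (v, up v))).1, up' (G'.pair (G.pair (v, up v))).1) : HE n) =
          G'.pair (G.pair (v, up v)) := Prod.ext rfl h2.2.symm
      rw [h3, G'.invol]
    · intro v hv
      have h2 : ty G' s' cl' up' r (G'.pair (v, up' v)) = 1 := by
        rw [ty1 L', G'.invol]; exact ⟨hv, rfl⟩
      rw [← hty, ty1 L] at h2
      refine ⟨(G.pair (G'.pair (v, up' v))).1, h2.1, ?_⟩
      have h3 : (((G.pair (G'.pair (v, up' v))).1, up (G.pair (G'.pair (v, up' v))).1) : HE n) =
          G.pair (G'.pair (v, up' v)) := Prod.ext rfl h2.2.symm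
      rw [h3, G.invol]
  have ht0 : ∀ h, Ch up r h → G.pair h = G'.pair h := by
    rintro ⟨v, i⟩ ⟨h1, h2⟩
    replace h2 : i = up v := h2
    rw [h2]
    exact htree v h1
  have ht1 : ∀ h, Ch up r (G.pair h) → G.pair h = G'.pair h := by
    intro h hh
    have h1 := ht0 _ hh
    rw [G.invol] at h1
    rw [h1, G'.invol]
    rw [← h1]
  have hcl : ∀ v, cl v ↔ cl' v := by
    intro v
    have h1 := ty2 L (v, 1)
    have h2 := ty2 L' (v, 1)
    rw [← hty] at h2
    have h3 : C1 cl ((v, 1) : HE n) ↔ C1 cl' ((v, 1) : HE n) := h1.symm.trans h2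
    simpa [C1] using h3
  -- the permutations agree
  have hopen : ∀ v, ¬ cl v → s v = s' v := by
    intro v hv
    by_cases hsv : s v = v
    · rw [hsv]
      by_contra h
      exact ((hS v).2 (fun h' => h h'.symm)) hsv
    · have h1 : G.pair (v, 1) = G'.pair (v, 1) := by
        rcases L.openTree v hsv hv with h | h
        · exact ht0 _ h
        · exact ht1 _ h
      rw [L.npk v hsv, L'.npk v ((hS v).1 hsv)] at h1
      exact congrArg Prod.fst h1
  have hsame : ∀ v, cl v → s v = s' v := by
    intro v hv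
    have hsv := L.closing.ne v hv
    set w := s v with hw
    -- `(w,2)` is of type 3
    have h1 : ty G s cl up r (w, 2) = 3 := by
      rw [ty3 L, ← L.npk v hsv, G.invol]
      exact ⟨rfl, hv⟩
    rw [hty, ty3 L'] at h1
    obtain ⟨x, i, hx⟩ : ∃ x i, G'.pair (w, 2) = (x, i) := ⟨_, _, rfl⟩
    rw [hx] at h1
    obtain ⟨rfl, hclx⟩ : i = 1 ∧ cl' x := h1
    have h2 : s' x = w := by
      have h3 := L'.npk x (L'.closing.ne x hclx)
      rw [← hx, G'.invol] at h3
      exact (congrArg Prod.fst h3).symm
    -- the chain from `w` to `v`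
    have hchain : s.SameCycle w v := ⟨-1, by rw [hw]; simp⟩
    obtain ⟨m, -, hm⟩ := hchain.exists_pow_eq'
    have hex : ∃ m, (s ^ m) w = v := ⟨m, hm⟩
    have hfind := Nat.find_spec hex
    have hmin : ∀ j, j < Nat.find hex → (s ^ j) w ≠ v := fun j hj => Nat.find_min hex hj
    have hiter : ∀ j, j ≤ Nat.find hex → (s' ^ j) w = (s ^ j) w := by
      intro j
      induction j with
      | zero => intro _; rfl
      | succ j ih =>
        intro hj
        rw [pow_succ', Perm.mul_apply, pow_succ', Perm.mul_apply, ih (by omega)]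
        refine (hopen _ fun hc => ?_).symm
        apply hmin j (by omega)
        refine L.closing.uniq _ _ hc hv ?_
        have h4 : s.SameCycle ((s ^ j) w) w := Perm.SameCycle.symm ⟨j, by simp⟩
        exact h4.trans hchain
    have h5 : s'.SameCycle w v := ⟨(Nat.find hex : ℤ), by
      rw [zpow_natCast, hiter _ le_rfl, hfind]⟩
    have h6 : s'.SameCycle x w := ⟨1, by rw [zpow_one, h2]⟩
    have h7 := L'.closing.uniq x v hclx ((hcl v).1 hv) (h6.trans h5)
    rw [← h7, h2]
  have hss : s' = s := by
    ext v : 1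
    by_cases hv : cl v
    · exact (hsame v hv).symm
    · exact (hopen v hv).symm
  subst hss
  refine ⟨rfl, ?_⟩
  -- the permutation of the legs
  have h5leg : ∀ h, ty G s' cl up r h = 5 → h = (h.1, 0) := by
    intro h hh
    have h1 := ((ty5 L h).1 hh).2.1
    rw [G.invol] at h1
    exact Prod.ext rfl h1.1
  have h5leg' : ∀ h, ty G s' cl up r h = 5 → s' h.1 ≠ h.1 := by
    intro h hh
    have h1 := ((ty5 L h).1 hh).2.1
    rw [G.invol] at h1
    exact h1.2
  have hp5 : ∀ h, ty G s' cl up r h = 5 → ty G s' cl up r (G.pair h) = 4 := by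
    intro h hh
    rw [ty_pair L, hh]; rfl
  have hp5' : ∀ h, ty G s' cl up r h = 5 → ty G s' cl up r (G'.pair h) = 4 := by
    intro h hh
    rw [hty, ty_pair L', ← hty, hh]; rfl
  have hp4 : ∀ h, ty G s' cl up r h = 4 → ty G s' cl up r (G.pair h) = 5 := by
    intro h hh
    rw [ty_pair L, hh]; rfl
  have hp4' : ∀ h, ty G s' cl up r h = 4 → ty G s' cl up r (G'.pair h) = 5 := by
    intro h hh
    rw [hty, ty_pair L', ← hty, hh]; rfl
  let f : Fin n → Fin n := fun x =>
    if ty G s' cl up r (x, 0) = 5 then (G'.pair (G.pair (x, 0))).1 else x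
  let g : Fin n → Fin n := fun x =>
    if ty G s' cl up r (x, 0) = 5 then (G.pair (G'.pair (x, 0))).1 else x
  have hf5 : ∀ x, ty G s' cl up r (x, 0) = 5 → G'.pair (G.pair (x, 0)) = (f x, 0) := by
    intro x hx
    have h1 := hp4' _ (hp5 _ hx)
    rw [h5leg _ h1]
    show ((G'.pair (G.pair (x, 0))).1, (0 : Fin 3)) = (f x, 0)
    simp only [f]
    rw [if_pos hx]
  have hg5 : ∀ x, ty G s' cl up r (x, 0) = 5 → G.pair (G'.pair (x, 0)) = (g x, 0) := by
    intro x hx
    have h1 := hp4 _ (hp5' _ hx)
    rw [h5leg _ h1]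
    show ((G.pair (G'.pair (x, 0))).1, (0 : Fin 3)) = (g x, 0)
    simp only [g]
    rw [if_pos hx]
  have hfn : ∀ x, ty G s' cl up r (x, 0) ≠ 5 → f x = x := fun x hx => if_neg hx
  have hgn : ∀ x, ty G s' cl up r (x, 0) ≠ 5 → g x = x := fun x hx => if_neg hx
  have hf5t : ∀ x, ty G s' cl up r (x, 0) = 5 → ty G s' cl up r (f x, 0) = 5 := by
    intro x hx
    rw [← hf5 x hx]
    exact hp4' _ (hp5 _ hx)
  have hg5t : ∀ x, ty G s' cl up r (x, 0) = 5 → ty G s' cl up r (g x, 0) = 5 := by
    intro x hx
    rw [← hg5 x hx]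
    exact hp4 _ (hp5' _ hx)
  let π : Perm (Fin n) :=
    { toFun := f
      invFun := g
      left_inv := by
        intro x
        by_cases hx : ty G s' cl up r (x, 0) = 5
        · have h1 := hg5 (f x) (hf5t x hx)
          rw [← hf5 x hx, G'.invol, G.invol] at h1
          exact (congrArg Prod.fst h1).symm
        · rw [hfn x hx, hgn x hx]
      right_inv := by
        intro x
        by_cases hx : ty G s' cl up r (x, 0) = 5
        · have h1 := hf5 (g x) (hg5t x hx)
          rw [← hg5 x hx, G.invol, G'.invol] at h1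
          exact (congrArg Prod.fst h1).symm
        · rw [hgn x hx, hfn x hx] }
  have hπ : ∀ x, π x = f x := fun _ => rfl
  refine ⟨π, fun x => ?_, ?_⟩
  · rw [hπ]
    by_cases hx : ty G s' cl up r (x, 0) = 5
    · have h1 := hp5 _ hx
      have h2 := h5leg' _ hx
      have h3 := h5leg' _ (hf5t x hx)
      obtain ⟨c, hc, hcc⟩ := L.closing.ex x h2
      obtain ⟨c', hc', hcc'⟩ := L'.closing.ex (f x) h3
      have h4 := hf _ h1 c c' (by rw [G.invol]; exact hc) hcc (by rw [hf5 x hx]; exact hc') hcc'
      rw [← h4] at hc'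
      exact hc.trans hc'.symm
    · rw [hfn x hx]
  · -- the graphs
    ext h : 2
    obtain ⟨k, rfl⟩ := (legs π).surjective h
    rw [pair_conj']
    have hfix : ∀ g : HE n, ty G s' cl up r g ≠ 5 → legs π g = g := by
      rintro ⟨v, i⟩ hg
      by_cases hi : i = 0
      · subst hi
        rw [legs_zero, hπ, hfn v hg]
      · exact legs_ne _ _ hi
    by_cases h5 : ty G s' cl up r k = 5
    · have hk := h5leg k h5
      have h4 := hp5 k h5
      rw [hfix (G.pair k) (by rw [h4]; decide)]
      rw [hk, legs_zero, hπ]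
      rw [hk] at h5
      rw [← hf5 _ h5, G'.invol]
    · rw [hfix k h5]
      by_cases h4 : ty G s' cl up r k = 4
      · have h6 := hp4 k h4
        have h7 := h5leg _ h6
        rw [h7] at h6
        conv_rhs => rw [h7, legs_zero, hπ, ← hf5 _ h6, ← h7, G.invol]
      · -- types 0, 1, 2, 3
        have hpt := ty_pair L k
        have h8 : G'.pair k = G.pair k := by
          have h9 : ty G s' cl up r k = 0 ∨ ty G s' cl up r k = 1 ∨ ty G s' cl up r k = 2 ∨
              ty G s' cl up r k = 3 := by
            revert h4 h5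
            generalize ty G s' cl up r k = t
            revert t
            decide
          rcases h9 with h9 | h9 | h9 | h9
          · exact (ht0 _ ((ty0 L _).1 h9)).symm
          · exact (ht1 _ ((ty1 L _).1 h9)).symm
          · obtain ⟨x, i⟩ := k
            obtain ⟨rfl, hx⟩ : i = 1 ∧ cl x := (ty2 L _).1 h9
            rw [L.npk x (L.closing.ne x hx), L'.npk x (L.closing.ne x hx)]
          · obtain ⟨x, i, hk⟩ : ∃ x i, G.pair k = (x, i) := ⟨_, _, rfl⟩
            have hk' : k = G.pair (x, i) := by rw [← hk, G.invol]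
            have h10 := (ty3 L _).1 h9
            rw [hk] at h10
            obtain ⟨rfl, hx⟩ : i = 1 ∧ cl x := h10
            rw [hk', G.invol, L.npk x (L.closing.ne x hx), ← L'.npk x (L.closing.ne x hx),
              G'.invol]
        rw [h8, hfix]
        rw [hpt]
        revert h4 h5
        generalize ty G s' cl up r k = t
        revert t
        decide

end

end Pool.Agent.H46.Jac
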