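import Mathlib

set_option autoImplicit false

/-!
# Trivalent Jacobi diagrams: the space `A(∅; ℚ)` and the numbers `a_d`

A vertex-oriented trivalent graph with vertex set `Fin n` is given by its half-edges `(v, i)`,
`v : Fin n`, `i : Fin 3`, the cyclic order at `v` being `(v,0), (v,1), (v,2)`, and by the fixed
point free involution pairing the two halves of every edge.
-/

open Equiv

namespace Pool.Agent.H46.Jac

/-- The half-edges of a trivalent graph with vertex set `Fin n`: three at each vertex. -/
abbrev HE (n : ℕ) : Type := Fin n × Fin 3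

/-- A vertex-oriented trivalent graph with vertex set `Fin n`: the pairing of the half-edges into
edges. The half-edges `(v,0), (v,1), (v,2)` at `v` are in their cyclic order. -/
@[ext]
structure TriGraph (n : ℕ) where
  /-- the other half of the edge containing a given half-edge -/
  pair : Perm (HE n)
  invol : ∀ h, pair (pair h) = h
  fixfree : ∀ h, pair h ≠ h

/-- The graph obtained by moving the half-edges by the permutation `σ`: what was attached at `h`
is now attached at `σ h`. -/
def TriGraph.conj {n : ℕ} (G : TriGraph n) (σ : Perm (HE n)) : TriGraph n where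
  pair := σ * G.pair * σ⁻¹
  invol h := by simp [G.invol]
  fixfree h hh := by
    apply G.fixfree (σ⁻¹ h)
    apply σ.injective
    simpa using hh

/-- Renaming the vertices. -/
def vperm {n : ℕ} (π : Perm (Fin n)) : Perm (HE n) := π.prodCongr (Equiv.refl (Fin 3))

/-- Permuting by `σ` the three half-edges at the vertex `v`. -/
def slot {n : ℕ} (v : Fin n) (σ : Perm (Fin 3)) : Perm (HE n) where
  toFun h := if h.1 = v then (h.1, σ h.2) else h
  invFun h := if h.1 = v then (h.1, σ⁻¹ h.2) else h
  left_inv h := by
    obtain ⟨w, i⟩ := h
    by_cases hv : w = v <;> simp [hv]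
  right_inv h := by
    obtain ⟨w, i⟩ := h
    by_cases hv : w = v <;> simp [hv]

/-- The cyclic permutation `a ↦ b ↦ c ↦ a`. -/
def cyc3 {n : ℕ} (a b c : HE n) : Perm (HE n) := swap a b * swap b c

/-- The defining relations of `A(∅; ℚ)` in degree `n / 2`. -/
inductive IsRel (n : ℕ) : (TriGraph n →₀ ℚ) → Prop
  /-- isomorphic graphs are identified: renaming the vertices -/
  | relabel (G : TriGraph n) (π : Perm (Fin n)) :
      IsRel n (Finsupp.single (G.conj (vperm π)) 1 - Finsupp.single G 1)
  /-- permuting the half-edges at `v`: for an even permutation the cyclic order at `v` does not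
  change (an isomorphism), for an odd one it is reversed and the sign changes (AS) -/
  | reorient (G : TriGraph n) (v : Fin n) (σ : Perm (Fin 3)) :
      IsRel n (Finsupp.single (G.conj (slot v σ)) 1 -
        Finsupp.single G (((Perm.sign σ : ℤˣ) : ℤ) : ℚ))
  /-- IHX at the edge `(v,i)—(w,j)`: the sum over the three cyclic rotations of three of the four
  ends around that edge is zero -/
  | ihx (G : TriGraph n) (v w : Fin n) (i j : Fin 3) (hvw : v ≠ w) (he : G.pair (v, i) = (w, j)) :
      IsRel n (Finsupp.single G 1 +
        Finsupp.single (G.conj (cyc3 (v, i + 1) (v, i + 2) (w, j + 1))) 1 +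
        Finsupp.single (G.conj (cyc3 (v, i + 1) (v, i + 2) (w, j + 1))⁻¹) 1)

/-- The space spanned by vertex-oriented trivalent graphs with `n` vertices modulo AS and IHX. -/
abbrev A (n : ℕ) : Type := (TriGraph n →₀ ℚ) ⧸ Submodule.span ℚ {x | IsRel n x}

/-- The class of a graph. -/
noncomputable def cls {n : ℕ} (G : TriGraph n) : A n :=
  Submodule.Quotient.mk (Finsupp.single G 1)

/-- The underlying graph, without loops and multiplicities. -/
def TriGraph.skel {n : ℕ} (G : TriGraph n) : SimpleGraph (Fin n) :=
  SimpleGraph.fromRel (fun v w => ∃ i, (G.pair (v, i)).1 = w)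

/-- `A(∅; ℚ)_conn` in degree `d`: the span of the connected graphs with `2d` vertices. -/
noncomputable def Aconn (d : ℕ) : Submodule ℚ (A (2 * d)) :=
  Submodule.span ℚ {x | ∃ G : TriGraph (2 * d), G.skel.Connected ∧ x = cls G}

/-- The number `a_d`. -/
noncomputable def aDim (d : ℕ) : ℕ := Module.finrank ℚ (Aconn d)

end Pool.Agent.H46.Jac
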