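import Pool.Agent.H46.Jac.Tree

set_option autoImplicit false

open Equiv

namespace Pool.Agent.H46.Jac

variable {n : ℕ}

/-- The half-edge `h` is the lower half of an edge of the tree rooted at `r`. -/
def Ch (up : Fin n → Fin 3) (r : Fin n) (h : HE n) : Prop := h.1 ≠ r ∧ h.2 = up h.1

/-- A graph with a packing `s`, one vertex chosen on every cycle, and a spanning tree given by the
slots `up v` of the edges going to the parents, numbered by `N`. -/
structure Lab (G : TriGraph n) (s : Perm (Fin n)) (cl : Fin n → Prop) (up : Fin n → Fin 3)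
    (r : Fin n) (N : Fin n → ℕ) : Prop where
  conn : G.skel.Connected
  npk : NPk G s
  closing : Closing s cl
  rmin : ∀ v, v ≠ r → N r < N v
  inj : Function.Injective N
  mono : ∀ v w, v ≠ r → w ≠ r → N v < N w →
    N (G.pair (v, up v)).1 < N (G.pair (w, up w)).1 ∨
      ((G.pair (v, up v)).1 = (G.pair (w, up w)).1 ∧
        (G.pair (v, up v)).2 < (G.pair (w, up w)).2)
  disj : ∀ h, Ch up r h → ¬ Ch up r (G.pair h)
  openTree : ∀ x, s x ≠ x → ¬ cl x → Ch up r (x, 1) ∨ Ch up r (G.pair (x, 1))
  closeTree : ∀ x, cl x → ¬ Ch up r (x, 1) ∧ ¬ Ch up r (G.pair (x, 1))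
  rest : ∀ h, ¬ Ch up r h → ¬ Ch up r (G.pair h) → (h.2 = 0 ∧ s h.1 ≠ h.1) ∨
    ((G.pair h).2 = 0 ∧ s (G.pair h).1 ≠ (G.pair h).1) ∨
      ∃ x, cl x ∧ (h = (x, 1) ∨ h = G.pair (x, 1))

theorem ap_inv (s : Perm (Fin n)) (v : Fin n) : s (s⁻¹ v) = v := s.apply_symm_apply v

theorem inv_ap (s : Perm (Fin n)) (v : Fin n) : s⁻¹ (s v) = v := s.symm_apply_apply v

theorem exists_parent (T : SimpleGraph (Fin n)) (hT : T.Connected) (r v : Fin n) (hv : v ≠ r) :
    ∃ u, T.Adj v u ∧ T.dist u r + 1 = T.dist v r := by
  obtain ⟨p, hp⟩ := hT.exists_walk_length_eq_dist v r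
  cases p with
  | nil => exact absurd rfl hv
  | @cons _ u _ h q =>
    refine ⟨u, h, ?_⟩
    rw [SimpleGraph.Walk.length_cons] at hp
    have h1 : T.dist u r ≤ q.length := SimpleGraph.dist_le q
    have h2 : T.dist v r ≤ T.dist v u + T.dist u r := hT.dist_triangle
    have h3 : T.dist v u = 1 := SimpleGraph.dist_eq_one_iff_adj.2 h
    omega

theorem exists_par (T : SimpleGraph (Fin n)) (hT : T.IsTree) (r : Fin n) :
    ∃ par : Fin n → Fin n, (∀ v, v ≠ r → T.Adj v (par v) ∧ T.dist (par v) r + 1 = T.dist v r) ∧
      ∀ u v, T.Adj u v → (u ≠ r ∧ v = par u) ∨ (v ≠ r ∧ u = par v) := by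
  classical
  refine ⟨fun v => if h : v = r then r else (exists_parent T hT.connected r v h).choose, ?_, ?_⟩
  · intro v hv
    dsimp only
    rw [dif_neg hv]
    exact (exists_parent T hT.connected r v hv).choose_spec
  · set par : Fin n → Fin n :=
      fun v => if h : v = r then r else (exists_parent T hT.connected r v h).choose with hpar
    have h1 : ∀ v, v ≠ r → T.Adj v (par v) ∧ T.dist (par v) r + 1 = T.dist v r := by
      intro v hv
      simp only [hpar]
      rw [dif_neg hv]
      exact (exists_parent T hT.connected r v hv).choose_spec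
    let f : {v : Fin n // v ≠ r} → T.edgeSet := fun v => ⟨s(v.1, par v.1), (h1 v.1 v.2).1⟩
    have hf : Function.Injective f := by
      intro v w h
      have h2 : s(v.1, par v.1) = s(w.1, par w.1) := congrArg Subtype.val h
      rw [Sym2.eq_iff] at h2
      rcases h2 with h2 | h2
      · exact Subtype.ext h2.1
      · have h3 := (h1 v.1 v.2).2
        have h4 := (h1 w.1 w.2).2
        rw [h2.2] at h3
        rw [← h2.1] at h4
        omega
    have hcard : Nat.card T.edgeSet ≤ Nat.card {v : Fin n // v ≠ r} := by
      have h2 := hT.card_edgeFinset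
      rw [Nat.card_eq_fintype_card, Nat.card_eq_fintype_card, ← SimpleGraph.edgeFinset_card]
      have h3 : Fintype.card {v : Fin n // v ≠ r} = Fintype.card (Fin n) - 1 := by
        rw [Fintype.card_subtype_compl, Fintype.card_subtype_eq]
      rw [h3]
      omega
    have hbij := hf.bijective_of_nat_card_le hcard
    intro u v huv
    obtain ⟨w, hw⟩ := hbij.2 ⟨s(u, v), huv⟩
    have h2 : s(w.1, par w.1) = s(u, v) := congrArg Subtype.val hw
    rw [Sym2.eq_iff] at h2
    rcases h2 with ⟨h2, h3⟩ | ⟨h2, h3⟩
    · left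
      rw [← h2]
      exact ⟨w.2, h3.symm⟩
    · right
      rw [← h2]
      exact ⟨w.2, h3.symm⟩

/-- The numbering: `N r = 0`, `N v = 4 N (par v) + k v + 1`. -/
def numb (par : Fin n → Fin n) (k : Fin n → ℕ) : ℕ → Fin n → ℕ
  | 0, _ => 0
  | (m + 1), v => 4 * numb par k m (par v) + k v + 1

theorem exists_lab (G : TriGraph n) (hG : G.skel.Connected)
    (hl : ∀ v i j, G.pair (v, i) ≠ (v, j)) (s : Perm (Fin n)) (hs : NPk G s)
    (hopt : ∀ s', Pk G s' → cost s ≤ cost s') :
    ∃ cl up r N, Lab G s cl up r N := by
  classical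
  obtain ⟨cl, hcl⟩ := exists_closing s
  obtain ⟨T, hKT, hTG, hT⟩ := hG.exists_isTree_le_of_le_of_isAcyclic (KG_le G s hs cl)
    (KG_acyclic G hl s hs hopt cl hcl)
  obtain ⟨r⟩ := hG.nonempty
  obtain ⟨par, hpar, hedge⟩ := exists_par T hT r
  set D : Fin n → ℕ := fun v => T.dist v r with hD
  have hDpar : ∀ v, v ≠ r → D (par v) + 1 = D v := fun v hv => (hpar v hv).2
  -- a half-edge towards the parent
  have hslot : ∀ v, ∃ i, v ≠ r → (G.pair (v, i)).1 = par v := by
    intro v
    by_cases hv : v = r
    · exact ⟨0, fun h => (h hv).elim⟩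
    · obtain ⟨-, i, hi⟩ := (skel_adj G _ _).1 (hTG (hpar v hv).1)
      exact ⟨i, fun _ => hi⟩
  choose sl hsl using hslot
  set up : Fin n → Fin 3 := fun v =>
    if s v ≠ v ∧ ¬ cl v ∧ s v = par v then 1
    else if s v ≠ v ∧ ¬ cl (s⁻¹ v) ∧ s⁻¹ v = par v then 2 else sl v with hup
  have hnpk2 : ∀ v, s v ≠ v → G.pair (v, 2) = (s⁻¹ v, 1) := by
    intro v hv
    have h1 : s (s⁻¹ v) ≠ s⁻¹ v := by
      intro h
      rw [ap_inv] at h
      exact hv (Perm.inv_eq_iff_eq.1 h.symm).symm
    have h2 := hs (s⁻¹ v) h1
    rw [ap_inv] at h2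
    rw [← h2, G.invol]
  have hup1 : ∀ v, v ≠ r → (G.pair (v, up v)).1 = par v := by
    intro v hv
    simp only [hup]
    split_ifs with h1 h2
    · rw [hs v h1.1]; exact h1.2.2
    · rw [hnpk2 v h2.1]; exact h2.2.2
    · exact hsl v hv
  -- facts on cycles of length 2
  have htwo : ∀ x, s x ≠ x → s (s x) = x → cl x ∨ cl (s x) := by
    intro x hx h2
    obtain ⟨c, hc, hcc⟩ := hcl.ex x hx
    obtain ⟨i, -, rfl⟩ := hc.exists_pow_eq'
    have key : ∀ i : ℕ, (s ^ i) x = x ∨ (s ^ i) x = s x := by
      intro i
      induction i with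
      | zero => left; simp
      | succ i ih =>
        rw [pow_succ', Perm.mul_apply]
        rcases ih with h | h
        · right; rw [h]
        · left; rw [h, h2]
    rcases key i with h | h
    · left; rwa [h] at hcc
    · right; rwa [h] at hcc
  have hsame1 : ∀ x, s.SameCycle x (s x) := fun x => ⟨1, by simp⟩
  have hopenAdj : ∀ x, s x ≠ x → ¬ cl x → T.Adj x (s x) := fun x hx hc =>
    hKT ⟨hx.symm, Or.inr (Or.inl ⟨hc, rfl⟩)⟩
  -- a long cycle of the packing is not contained in the tree
  have hlong : ∀ x, cl x → s (s x) ≠ x → ¬ T.Adj x (s x) := by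
    intro x hx hxx hadj
    have hall : ∀ y, s.SameCycle x y → T.Adj y (s y) := by
      intro y hy
      by_cases hcy : cl y
      · rw [← hcl.uniq x y hx hcy hy]; exact hadj
      · refine hopenAdj y ?_ hcy
        intro h
        exact hcl.ne x hx ((hy.apply_eq_self_iff).2 h)
    obtain ⟨y, hy, hmax⟩ := (Finset.univ.filter (fun y => s.SameCycle x y)).exists_max_image D
      ⟨x, Finset.mem_filter.2 ⟨Finset.mem_univ _, Perm.SameCycle.refl s x⟩⟩
    have hy' := (Finset.mem_filter.1 hy).2
    have hm1 := hmax (s y) (Finset.mem_filter.2 ⟨Finset.mem_univ _, hy'.trans (hsame1 y)⟩)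
    have hyi : s.SameCycle x (s⁻¹ y) := by
      refine hy'.trans ⟨-1, ?_⟩
      simp
    have hm2 := hmax (s⁻¹ y) (Finset.mem_filter.2 ⟨Finset.mem_univ _, hyi⟩)
    have a1 : s y = par y := by
      rcases hedge _ _ (hall y hy') with h | h
      · exact h.2
      · have := hDpar _ h.1
        rw [← h.2] at this
        omega
    have a2 : s⁻¹ y = par y := by
      have h0 := hall _ hyi
      rw [ap_inv] at h0
      rcases hedge _ _ h0 with h | h
      · have := hDpar _ h.1
        rw [← h.2] at this
        omega
      · exact h.2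
    have a3 : s (s y) = y := by
      rw [a1, ← a2, ap_inv]
    obtain ⟨i, -, rfl⟩ := hy'.exists_pow_eq'
    have a4 : (s ^ i) (s (s x)) = (s ^ i) x := by
      rw [← a3]
      have : ∀ z, s ((s ^ i) z) = (s ^ i) (s z) := by
        intro z
        rw [← Perm.mul_apply, ← Perm.mul_apply, ← pow_succ', ← pow_succ]
      rw [this, this]
    exact hxx ((s ^ i).injective a4)
  have hopen : ∀ x, s x ≠ x → ¬ cl x → Ch up r (x, 1) ∨ Ch up r (G.pair (x, 1)) := by
    intro x hx hc
    rw [hs x hx]
    rcases hedge _ _ (hopenAdj x hx hc) with ⟨h1, h2⟩ | ⟨h1, h2⟩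
    · left
      refine ⟨h1, ?_⟩
      show (1 : Fin 3) = up x
      simp only [hup]
      rw [if_pos ⟨hx, hc, h2⟩]
    · right
      refine ⟨h1, ?_⟩
      show (2 : Fin 3) = up (s x)
      have hx' : s (s x) ≠ s x := fun h => hx (s.injective h)
      have hi : s⁻¹ (s x) = x := inv_ap s x
      simp only [hup]
      rw [if_neg, if_pos]
      · rw [hi]; exact ⟨hx', hc, h2⟩
      · rintro ⟨-, h4, h5⟩
        rcases htwo x hx (h5.trans h2.symm) with h6 | h6
        · exact hc h6
        · exact h4 h6
  have hclose : ∀ x, cl x → ¬ Ch up r (x, 1) ∧ ¬ Ch up r (G.pair (x, 1)) := by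
    intro x hx
    have hsx := hcl.ne x hx
    have hsx' : s (s x) ≠ s x := fun h => hsx (s.injective h)
    have hns : ¬ cl (s x) := fun h => hsx (hcl.uniq x (s x) hx h (hsame1 x)).symm
    rw [hs x hsx]
    constructor
    · rintro ⟨h1, h2⟩
      replace h1 : x ≠ r := h1
      replace h2 : 1 = up x := h2
      have h3 : par x = s x := by
        rw [← hup1 x h1, ← h2, hs x hsx]
      by_cases h4 : s (s x) = x
      · have h5 : s⁻¹ x = s x := by rw [Perm.inv_eq_iff_eq, h4]
        simp only [hup] at h2
        rw [if_neg (by rintro ⟨-, h, -⟩; exact h hx), if_pos] at h2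
        · exact absurd h2 (by decide)
        · rw [h5]
          exact ⟨hsx, hns, h3.symm⟩
      · apply hlong x hx h4
        rw [← h3]
        exact (hpar x h1).1
    · rintro ⟨h1, h2⟩
      replace h1 : s x ≠ r := h1
      replace h2 : 2 = up (s x) := h2
      have h3 : par (s x) = x := by
        rw [← hup1 (s x) h1, ← h2, ← hs x hsx, G.invol]
      by_cases h4 : s (s x) = x
      · simp only [hup] at h2
        rw [if_pos] at h2
        · exact absurd h2 (by decide)
        · exact ⟨hsx', hns, by rw [h3, h4]⟩
      · apply hlong x hx h4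
        have := (hpar (s x) h1).1
        rw [h3] at this
        exact this.symm
  -- the numbering
  set k : Fin n → ℕ := fun v => ((G.pair (v, up v)).2 : ℕ) with hk
  set N : Fin n → ℕ := fun v => numb par k (D v) v with hN
  have hDr : D r = 0 := by simp [hD]
  have hNr : N r = 0 := by
    simp only [hN, hDr]
    rfl
  have hNs : ∀ v, v ≠ r → N v = 4 * N (par v) + k v + 1 := by
    intro v hv
    simp only [hN]
    rw [← hDpar v hv]
    rfl
  have hk3 : ∀ v, k v < 3 := fun v => (G.pair (v, up v)).2.2
  have hNpos : ∀ v, v ≠ r → 0 < N v := by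
    intro v hv
    rw [hNs v hv]
    omega
  have hmono : ∀ v w, v ≠ r → w ≠ r → N v < N w → N (par v) < N (par w) ∨
      (N (par v) = N (par w) ∧ k v < k w) := by
    intro v w hv hw h
    rw [hNs v hv, hNs w hw] at h
    have := hk3 v
    have := hk3 w
    omega
  have hinj : Function.Injective N := by
    have key : ∀ m v w, D v = m → N v = N w → v = w := by
      intro m
      induction m with
      | zero =>
        intro v w hv h
        have hvr : v = r := by
          by_contra h'
          have := hDpar v h'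
          omega
        rw [hvr, hNr] at h
        by_contra h'
        have := hNpos w (fun h'' => h' (hvr.trans h''.symm))
        omega
      | succ m ih =>
        intro v w hv h
        have hvr : v ≠ r := by
          rintro rfl
          omega
        have hwr : w ≠ r := by
          rintro rfl
          have := hNpos v hvr
          omega
        have h1 := hDpar v hvr
        rw [hNs v hvr, hNs w hwr] at h
        have h2 := hk3 v
        have h3 := hk3 w
        have h4 : N (par v) = N (par w) := by omega
        have h5 : k v = k w := by omega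
        have h6 := ih (par v) (par w) (by omega) h4
        have h7 : G.pair (v, up v) = G.pair (w, up w) := by
          refine Prod.ext ?_ (Fin.ext h5)
          rw [hup1 v hvr, hup1 w hwr, h6]
        exact congrArg Prod.fst (G.pair.injective h7)
    intro v w h
    exact key (D v) v w rfl h
  refine ⟨cl, up, r, N, ⟨hG, hs, hcl, ?_, hinj, ?_, ?_, hopen, hclose, ?_⟩⟩
  · intro v hv
    rw [hNr]
    exact hNpos v hv
  · intro v w hv hw h
    rw [hup1 v hv, hup1 w hw]
    rcases hmono v w hv hw h with h1 | ⟨h1, h2⟩
    · exact Or.inl h1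
    · right
      exact ⟨hinj h1, h2⟩
  · rintro ⟨v, i⟩ ⟨h1, h2⟩ ⟨h3, h4⟩
    replace h1 : v ≠ r := h1
    replace h2 : i = up v := h2
    have a1 : par v = (G.pair (v, i)).1 := by rw [h2, hup1 v h1]
    have a2 : par (G.pair (v, i)).1 = v := by
      have h5 := hup1 _ h3
      rw [← h4] at h5
      have h6 : (((G.pair (v, i)).1, (G.pair (v, i)).2) : HE n) = G.pair (v, i) := rfl
      rw [h6, G.invol] at h5
      exact h5.symm
    have b1 := hDpar v h1
    have b2 := hDpar _ h3
    rw [a2, ← a1] at b2
    omega
  · rintro ⟨v, i⟩ hc1 hc2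
    by_contra hcon
    push Not at hcon
    obtain ⟨n1, n2, n3⟩ := hcon
    obtain ⟨w, j, hwj⟩ : ∃ w j, G.pair (v, i) = (w, j) := ⟨_, _, rfl⟩
    rw [hwj] at hc2 n2
    have hwj' : G.pair (w, j) = (v, i) := by rw [← hwj, G.invol]
    by_cases hv : s v = v
    · by_cases hw : s w = w
      · -- an edge outside the packing
        have hvw : v ≠ w := by
          rintro rfl
          exact hl _ _ _ hwj
        have hadj : T.Adj v w := hKT ⟨hvw, Or.inl ⟨hv, hw, i, by rw [hwj]⟩⟩
        obtain ⟨x, hx, hlow⟩ := exists_low G hl s hs.pk hopt {v, w} ⟨v, by simp⟩ (by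
          intro x hx
          rw [Finset.mem_insert, Finset.mem_singleton] at hx
          rcases hx with rfl | rfl
          · exact hv
          · exact hw)
        have huniq : ∀ i', (G.pair (v, i')).1 = w → i' = i := by
          intro i' hi'
          rw [Finset.mem_insert, Finset.mem_singleton] at hx
          rcases hx with rfl | rfl
          · exact hlow i' i (by rw [hi']; simp) (by rw [hwj]; simp)
          · have e1 : G.pair (x, (G.pair (v, i')).2) = (v, i') := by
              have : ((x, (G.pair (v, i')).2) : HE n) = G.pair (v, i') := by rw [← hi']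
              rw [this, G.invol]
            have e2 := hlow (G.pair (v, i')).2 j (by rw [e1]; simp) (by rw [hwj']; simp)
            rw [e2] at e1
            rw [hwj'] at e1
            exact (congrArg Prod.snd e1).symm
        rcases hedge _ _ hadj with ⟨a1, a2⟩ | ⟨a1, a2⟩
        · apply hc1
          refine ⟨a1, ?_⟩
          exact (huniq (up v) (by rw [hup1 v a1, a2])).symm
        · apply hc2
          refine ⟨a1, ?_⟩
          have e1 := hup1 w a1
          rw [← a2] at e1
          have e2 : G.pair (v, (G.pair (w, up w)).2) = (w, up w) := by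
            have : ((v, (G.pair (w, up w)).2) : HE n) = G.pair (w, up w) := by rw [← e1]
            rw [this, G.invol]
          have e3 := huniq _ (by rw [e2] : (G.pair (v, (G.pair (w, up w)).2)).1 = w)
          rw [e3, hwj] at e2
          exact congrArg Prod.snd e2
      · -- only `w` lies on the packing
        have hj0 : j ≠ 0 := fun h => hw (n2 h)
        have hj : j = 1 ∨ j = 2 := by omega
        rcases hj with rfl | rfl
        · rw [hs w hw] at hwj'
          have h1 : s w = v := congrArg Prod.fst hwj'
          have h2 : s (s w) = s w := by rw [h1, hv]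
          exact hw (s.injective h2)
        · rw [hnpk2 w hw] at hwj'
          have h1 : s⁻¹ w = v := congrArg Prod.fst hwj'
          have h2 : w = s v := (Perm.inv_eq_iff_eq.1 h1)
          rw [hv] at h2
          rw [h2] at hw
          exact hw hv
    · have hi0 : i ≠ 0 := fun h => hv (n1 h)
      have hi : i = 1 ∨ i = 2 := by omega
      rcases hi with rfl | rfl
      · by_cases hc : cl v
        · exact (n3 v hc).1 rfl
        · rcases hopen v hv hc with h | h
          · exact hc1 h
          · rw [hwj] at h
            exact hc2 h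
      · have hu := hnpk2 v hv
        set u := s⁻¹ v with hudef
        have hsu : s u = v := by rw [hudef, ap_inv]
        have hsu' : s u ≠ u := by
          intro h
          rw [hsu] at h
          rw [← h] at hsu
          exact hv hsu
        have hpu : G.pair (u, 1) = (v, 2) := by rw [hs u hsu', hsu]
        by_cases hc : cl u
        · exact (n3 u hc).2 hpu.symm
        · rcases hopen u hsu' hc with h | h
          · rw [← hu, hwj] at h
            exact hc2 h
          · rw [hpu] at h
            exact hc1 h

end Pool.Agent.H46.Jac
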