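import Pool.Agent.H46.Jac.Pack

set_option autoImplicit false

open Equiv

namespace Pool.Agent.H46.Jac

variable {n : ℕ}

/-- Moving the legs (the half-edges `(v, 0)`) by the permutation `π` of the vertices. -/
def legs (π : Perm (Fin n)) : Perm (HE n) where
  toFun h := if h.2 = 0 then (π h.1, h.2) else h
  invFun h := if h.2 = 0 then (π⁻¹ h.1, h.2) else h
  left_inv h := by
    obtain ⟨w, i⟩ := h
    by_cases hi : i = 0 <;> simp [hi]
  right_inv h := by
    obtain ⟨w, i⟩ := h
    by_cases hi : i = 0 <;> simp [hi]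

theorem legs_zero (π : Perm (Fin n)) (v : Fin n) : legs π (v, 0) = (π v, 0) := rfl

theorem legs_ne (π : Perm (Fin n)) (v : Fin n) {i : Fin 3} (hi : i ≠ 0) :
    legs π (v, i) = (v, i) := if_neg hi

theorem legs_mul (π τ : Perm (Fin n)) : legs (π * τ) = legs π * legs τ := by
  ext h : 1
  obtain ⟨v, i⟩ := h
  by_cases hi : i = 0
  · subst hi
    simp [legs_zero]
  · simp [legs_ne _ _ hi]

theorem legs_one : legs (1 : Perm (Fin n)) = 1 := by
  ext h : 1
  obtain ⟨v, i⟩ := h
  by_cases hi : i = 0
  · subst hi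
    simp [legs_zero]
  · simp [legs_ne _ _ hi]

theorem legs_inv (π : Perm (Fin n)) : (legs π)⁻¹ = legs π⁻¹ := by
  rw [inv_eq_iff_mul_eq_one, ← legs_mul, mul_inv_cancel, legs_one]

theorem legs_swap (v w : Fin n) : legs (swap v w) = swap (v, 0) (w, 0) := by
  ext h : 1
  obtain ⟨u, i⟩ := h
  by_cases hi : i = 0
  · subst hi
    rw [legs_zero]
    by_cases h1 : u = v
    · subst h1; simp
    by_cases h2 : u = w
    · subst h2; simp
    rw [swap_apply_of_ne_of_ne h1 h2, swap_apply_of_ne_of_ne] <;> simp [h1, h2]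
  · rw [legs_ne _ _ hi, swap_apply_of_ne_of_ne] <;> simp [hi]

/-- `π` may be used to move the legs of every connected graph with the packing `s`. -/
def Good (s π : Perm (Fin n)) : Prop :=
  ∀ G : TriGraph n, G.skel.Connected → NPk G s → (G.conj (legs π)).skel.Connected ∧
    NPk (G.conj (legs π)) s ∧ cls (G.conj (legs π)) - cls G ∈ U n (cost s)

theorem Good.one (s : Perm (Fin n)) : Good s 1 := by
  intro G hG hs
  rw [legs_one, conj_one, sub_self]
  exact ⟨hG, hs, Submodule.zero_mem _⟩

theorem Good.mul {s π τ : Perm (Fin n)} (h1 : Good s π) (h2 : Good s τ) : Good s (π * τ) := by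
  intro G hG hs
  obtain ⟨a1, a2, a3⟩ := h2 G hG hs
  obtain ⟨b1, b2, b3⟩ := h1 _ a1 a2
  rw [legs_mul, conj_mul]
  refine ⟨b1, b2, ?_⟩
  have := Submodule.add_mem _ b3 a3
  rwa [sub_add_sub_cancel] at this

theorem Good.swap_succ (s : Perm (Fin n)) (v : Fin n) : Good s (swap v (s v)) := by
  by_cases hv : s v = v
  · rw [hv, swap_self]
    exact Good.one s
  intro G hG hs
  have hp : ∀ u, (G.conj (swap (v, 0) (s v, 0))).pair (u, 1) =
      swap (v, 0) (s v, 0) (G.pair (u, 1)) := by
    intro u
    have h0 : swap (v, (0 : Fin 3)) (s v, 0) (u, 1) = (u, 1) :=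
      swap_apply_of_ne_of_ne (by simp) (by simp)
    rw [pair_conj, swap_inv, h0]
  have hq : ∀ u, s u ≠ u → (G.conj (swap (v, 0) (s v, 0))).pair (u, 1) = (s u, 2) := by
    intro u hu
    have h0 : swap (v, (0 : Fin 3)) (s v, 0) (s u, 2) = (s u, 2) :=
      swap_apply_of_ne_of_ne (by simp) (by simp)
    rw [hp, hs u hu, h0]
  rw [legs_swap]
  refine ⟨conn_conj_edge G hG _ v (s v) ?_ ⟨1, ?_⟩, fun u hu => hq u hu,
    swap_step G hG s hs v hv⟩
  · intro h
    by_cases h1 : h = (v, 0)
    · right; rw [h1]; simp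
    by_cases h2 : h = (s v, 0)
    · right; rw [h2]; simp
    left
    rw [swap_apply_of_ne_of_ne h1 h2]
  · rw [hq v hv]

theorem Good.swap_pow (s : Perm (Fin n)) (x : Fin n) (i : ℕ) : Good s (swap x ((s ^ i) x)) := by
  induction i with
  | zero =>
    have h : swap x ((s ^ 0) x) = 1 := by
      rw [pow_zero, Perm.one_apply, swap_self]; rfl
    rw [h]; exact Good.one s
  | succ i ih =>
    set y := (s ^ i) x with hy
    have hz : (s ^ (i + 1)) x = s y := by rw [pow_succ', Perm.mul_apply, hy]
    rw [hz]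
    by_cases h1 : x = s y
    · rw [← h1, swap_self]; exact Good.one s
    by_cases h2 : x = y
    · rw [h2]; exact Good.swap_succ s y
    have h3 := swap_mul_swap_mul_swap (x := x) (y := y) (z := s y) h2 h1
    rw [swap_comm x, ← h3]
    exact ((Good.swap_succ s y).mul ih).mul (Good.swap_succ s y)

theorem Good.swap_same {s : Perm (Fin n)} {x y : Fin n} (h : s.SameCycle x y) :
    Good s (swap x y) := by
  obtain ⟨i, -, rfl⟩ := h.exists_pow_eq'
  exact Good.swap_pow s x i

theorem Good.of_sameCycle (s : Perm (Fin n)) : ∀ (k : ℕ) (π : Perm (Fin n)),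
    π.support.card ≤ k → (∀ x, s.SameCycle x (π x)) → Good s π := by
  intro k
  induction k with
  | zero =>
    intro π hk _
    have : π = 1 := by
      rw [← Perm.support_eq_empty_iff]
      exact Finset.card_eq_zero.1 (Nat.le_zero.1 hk)
    rw [this]
    exact Good.one s
  | succ k ih =>
    intro π hk hπ
    by_cases h1 : π = 1
    · rw [h1]; exact Good.one s
    obtain ⟨x, hx⟩ : ∃ x, π x ≠ x := by
      by_contra h
      push Not at h
      exact h1 (Equiv.ext h)
    have h2 := Perm.card_support_swap_mul hx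
    have h3 : Good s (swap x (π x) * π) := by
      refine ih _ (by omega) fun u => ?_
      rw [Perm.mul_apply]
      by_cases a1 : π u = x
      · rw [a1, swap_apply_left]
        have := hπ u
        rw [a1] at this
        exact this.trans (hπ x)
      by_cases a2 : π u = π x
      · rw [a2, swap_apply_right]
        rw [π.injective a2]
      rw [swap_apply_of_ne_of_ne a1 a2]
      exact hπ u
    have h4 := (Good.swap_same (hπ x)).mul h3
    rwa [← mul_assoc, swap_mul_self, one_mul] at h4

end Pool.Agent.H46.Jac
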