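import Pool.Agent.H46.Jac.Legs

set_option autoImplicit false

open Equiv

namespace Pool.Agent.H46.Jac

variable {n : ℕ}

theorem two_mul_card_cycleType_le (s : Perm (Fin n)) : 2 * Multiset.card s.cycleType ≤ n := by
  have h1 : ∀ m : Multiset ℕ, (∀ x ∈ m, 2 ≤ x) → 2 * Multiset.card m ≤ m.sum := by
    intro m
    induction m using Multiset.induction_on with
    | empty => simp
    | cons a m ih =>
      intro h
      have h2 := ih (fun x hx => h x (Multiset.mem_cons_of_mem hx))
      have h3 := h a (Multiset.mem_cons_self a m)
      rw [Multiset.card_cons, Multiset.sum_cons]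
      omega
  have h2 := h1 s.cycleType (fun x hx => Perm.two_le_of_mem_cycleType hx)
  rw [Perm.sum_cycleType] at h2
  have h3 := Finset.card_le_univ s.support
  rw [Fintype.card_fin] at h3
  omega

/-- Adding a disjoint cycle lowers the cost. -/
theorem cost_mul_cycle (s c : Perm (Fin n)) (hc : c.IsCycle) (hd : s.Disjoint c) :
    cost (s * c) < cost s := by
  unfold cost
  have h1 := two_mul_card_cycleType_le (s * c)
  rw [hd.card_support_mul, hd.cycleType_mul, Multiset.card_add, hc.cycleType,
    Multiset.card_singleton]
  rw [hd.cycleType_mul, Multiset.card_add, hc.cycleType, Multiset.card_singleton] at h1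
  have h2 := Finset.card_le_univ c.support
  rw [Fintype.card_fin] at h2
  obtain ⟨k, hk⟩ : ∃ k, n = Multiset.card s.cycleType + 1 + k := ⟨n - (Multiset.card s.cycleType + 1),
    by omega⟩
  have h3 : n - (Multiset.card s.cycleType + 1) = k := by omega
  have h4 : n - Multiset.card s.cycleType = k + 1 := by omega
  rw [h3, h4, mul_add, mul_one]
  omega

/-- Outside the vertices of an optimal packing there is no cycle: every nonempty set of such
vertices has a vertex with at most one half-edge into the set. -/
theorem exists_low (G : TriGraph n) (hl : ∀ v i j, G.pair (v, i) ≠ (v, j)) (s : Perm (Fin n))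
    (hs : Pk G s) (hopt : ∀ s', Pk G s' → cost s ≤ cost s') (X : Finset (Fin n))
    (hX : X.Nonempty) (hXs : ∀ v ∈ X, s v = v) :
    ∃ v ∈ X, ∀ i j, (G.pair (v, i)).1 ∈ X → (G.pair (v, j)).1 ∈ X → i = j := by
  classical
  by_contra hcon
  push Not at hcon
  -- exits
  have hex : ∀ h : HE n, ∃ g : Fin 3, h.1 ∈ X → g ≠ h.2 ∧ (G.pair (h.1, g)).1 ∈ X := by
    intro h
    by_cases hh : h.1 ∈ X
    · obtain ⟨i, j, h1, h2, h3⟩ := hcon h.1 hh
      by_cases h4 : i = h.2
      · refine ⟨j, fun _ => ⟨?_, h2⟩⟩
        rw [← h4]; exact h3.symm
      · exact ⟨i, fun _ => ⟨h4, h1⟩⟩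
    · exact ⟨0, fun h => (hh h).elim⟩
  choose g hg using hex
  obtain ⟨v0, hv0⟩ := hX
  -- the walk
  let nx : HE n → HE n := fun h => G.pair (h.1, g h)
  let A : ℕ → HE n := fun t => nx^[t] (v0, 0)
  have hA : ∀ t, A (t + 1) = G.pair ((A t).1, g (A t)) := by
    intro t
    show nx^[t + 1] (v0, 0) = _
    rw [Function.iterate_succ_apply']
  have hAX : ∀ t, (A t).1 ∈ X := by
    intro t
    induction t with
    | zero => exact hv0
    | succ t ih => rw [hA]; exact (hg _ ih).2
  set y : ℕ → Fin n := fun t => (A t).1 with hy
  have hloop : ∀ t, y (t + 1) ≠ y t := by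
    intro t h
    have h1 := hl (A t).1 (g (A t)) (A (t + 1)).2
    apply h1
    rw [← hA]
    exact Prod.ext h rfl
  -- first repetition
  have hrep : ∃ b, ∃ a, a < b ∧ y a = y b := by
    obtain ⟨a, b, hab, he⟩ := Finite.exists_ne_map_eq_of_infinite y
    rcases lt_or_gt_of_ne hab with h | h
    · exact ⟨b, a, h, he⟩
    · exact ⟨a, b, h, he.symm⟩
  let b := Nat.find hrep
  obtain ⟨a, hab, hyab⟩ : ∃ a, a < b ∧ y a = y b := Nat.find_spec hrep
  have hinj : ∀ t u, t < b → u < b → y t = y u → t = u := by
    intro t u ht hu h
    by_contra hne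
    rcases lt_or_gt_of_ne hne with h1 | h1
    · exact Nat.find_min hrep hu ⟨t, h1, h⟩
    · exact Nat.find_min hrep ht ⟨u, h1, h.symm⟩
  have hb2 : a + 2 ≤ b := by
    by_contra h
    have h1 : b = a + 1 := by omega
    rw [h1] at hyab
    exact hloop a hyab.symm
  set l : List (Fin n) := (List.range (b - a)).map (fun t => y (a + t)) with hldef
  have hlen : l.length = b - a := by simp [hldef]
  have hget : ∀ t (ht : t < l.length), l[t] = y (a + t) := by
    intro t ht
    simp [hldef]
  have hnd : l.Nodup := by
    rw [hldef]
    refine List.Nodup.map_on ?_ List.nodup_range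
    intro t ht u hu h
    rw [List.mem_range] at ht hu
    have := hinj (a + t) (a + u) (by omega) (by omega) h
    omega
  set c : Perm (Fin n) := l.formPerm with hc
  have hcyc : c.IsCycle := by
    apply List.isCycle_formPerm hnd
    rw [hlen]; omega
  have hsupp : ∀ v, c v ≠ v → ∃ t, t < b - a ∧ v = y (a + t) := by
    intro v hv
    have h1 := List.mem_of_formPerm_apply_ne hv
    rw [hldef, List.mem_map] at h1
    obtain ⟨t, ht, rfl⟩ := h1
    exact ⟨t, List.mem_range.1 ht, rfl⟩
  have hcX : ∀ v, c v ≠ v → v ∈ X := by
    intro v hv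
    obtain ⟨t, -, rfl⟩ := hsupp v hv
    exact hAX _
  have hd : s.Disjoint c := by
    intro v
    by_cases h : c v = v
    · exact Or.inr h
    · exact Or.inl (hXs v (hcX v h))
  have hcy : ∀ t, t < b - a → c (y (a + t)) = y (a + t + 1) := by
    intro t ht
    have ht' : t < l.length := by rw [hlen]; exact ht
    have h1 := List.formPerm_apply_getElem l hnd t ht'
    rw [hget t ht', hget _ (Nat.mod_lt _ (by omega))] at h1
    rw [hc, h1, hlen]
    by_cases h2 : t + 1 = b - a
    · rw [h2, Nat.mod_self, add_zero, hyab]
      congr 1
      omega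
    · rw [Nat.mod_eq_of_lt (by omega)]
      rfl
  -- the slots
  have hidx : ∀ v, ∃ t, c v ≠ v → t < b - a ∧ v = y (a + t) := by
    intro v
    by_cases h : c v = v
    · exact ⟨0, fun h' => (h' h).elim⟩
    · obtain ⟨t, ht⟩ := hsupp v h
      exact ⟨t, fun _ => ht⟩
  choose idx hidx using hidx
  have hne : ∀ t, (((A t).1, g (A t)) : HE n) ≠ A t := by
    intro t h
    exact (hg (A t) (hAX t)).1 (congrArg Prod.snd h)
  obtain ⟨o, ar, hs'⟩ := hs
  have hPk : Pk G (s * c) := by
    refine ⟨fun v => if c v = v then o v else g (A (a + idx v)),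
      fun v => if c v = v then ar v else (A (if idx v = 0 then b else a + idx v)).2,
      fun v hv => ?_⟩
    by_cases h : c v = v
    · have hsv : s v ≠ v := by
        intro h'
        apply hv
        rw [Perm.mul_apply, h, h']
      have hcsv : c (s v) = s v := by
        rcases hd (s v) with h1 | h1
        · exact absurd (s.injective h1) hsv
        · exact h1
      obtain ⟨h1, h2⟩ := hs' v hsv
      refine ⟨?_, ?_⟩
      · simp only [h, if_true]; exact h1
      · simp only [Perm.mul_apply, h, if_true, hcsv]; exact h2
    · obtain ⟨ht, hvt⟩ := hidx v h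
      have hccv : c (c v) ≠ c v := fun h' => h (c.injective h')
      have hscv : s (c v) = c v := hXs _ (hcX _ hccv)
      obtain ⟨hu, hvu⟩ := hidx (c v) hccv
      have hcv : c v = y (a + idx v + 1) := by
        conv_lhs => rw [hvt]
        exact hcy _ ht
      set t := idx v with htdef
      set u := idx (c v) with hudef
      refine ⟨?_, ?_⟩
      · simp only [h, if_false]
        by_cases h0 : t = 0
        · rw [if_pos h0, show idx v = 0 from h0, add_zero]
          intro he
          -- exit of `y a` is the arrival `A b`
          have h1 : (((A a).1, g (A a)) : HE n) = A b := Prod.ext hyab he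
          have h2 : G.pair (A b) = ((A (b - 1)).1, g (A (b - 1))) := by
            have h3 := hA (b - 1)
            rw [show b - 1 + 1 = b by omega] at h3
            rw [h3, G.invol]
          rw [← h1, ← hA] at h2
          have h5 : y (a + 1) = y (b - 1) := by
            show (A (a + 1)).1 = (A (b - 1)).1
            rw [h2]
          have h4 : a + 1 = b - 1 := hinj _ _ (by omega) (by omega) h5
          rw [← h4] at h2
          exact hne _ h2.symm
        · rw [if_neg h0]
          intro he
          exact hne (a + t) (Prod.ext rfl he)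
      · simp only [Perm.mul_apply, h, if_false, hscv, hccv]
        have hv1 : v = (A (a + t)).1 := hvt
        have h9 : A (a + t + 1) = G.pair (v, g (A (a + t))) := by
          rw [hA (a + t), ← hv1]
        show G.pair (v, g (A (a + t))) = _
        rw [← h9]
        refine Prod.ext ?_ ?_
        · exact hcv.symm
        · show (A (a + t + 1)).2 = (A (if idx (c v) = 0 then b else a + idx (c v))).2
          rw [← hudef]
          by_cases h5 : t + 1 = b - a
          · have h6 : y (a + u) = y a := by
              rw [← hvu, hcv, hyab]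
              congr 1
              omega
            have h7 := hinj _ _ (by omega) (by omega) h6
            have h8 : u = 0 := by omega
            rw [if_pos h8]
            congr 2
            omega
          · have h6 : y (a + u) = y (a + t + 1) := by
              rw [← hvu, hcv]
            have h7 := hinj _ _ (by omega) (by omega) h6
            have h8 : u = t + 1 := by omega
            rw [if_neg (by omega), h8]
            rfl
  exact absurd (hopt _ hPk) (not_le.2 (cost_mul_cycle s c hcyc hd))

end Pool.Agent.H46.Jac
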