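import Pool.Agent.H46.Jac.Rel

set_option autoImplicit false

open Equiv

namespace Pool.Agent.H46.Jac

variable {n : ℕ}

/-! ### Connectivity -/

theorem skel_adj (G : TriGraph n) (v w : Fin n) :
    G.skel.Adj v w ↔ v ≠ w ∧ ∃ i, (G.pair (v, i)).1 = w := by
  unfold TriGraph.skel
  rw [SimpleGraph.fromRel_adj]
  constructor
  · rintro ⟨h, h1 | ⟨i, hi⟩⟩
    · exact ⟨h, h1⟩
    · refine ⟨h, (G.pair (w, i)).2, ?_⟩
      have : (v, (G.pair (w, i)).2) = G.pair (w, i) := by rw [← hi]
      rw [this, G.invol]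
  · rintro ⟨h, h1⟩
    exact ⟨h, Or.inl h1⟩

theorem conn_iff (G : TriGraph n) :
    G.skel.Connected ↔ Nonempty (Fin n) ∧ ∀ X : Set (Fin n), X.Nonempty →
      (∀ h : HE n, h.1 ∈ X → (G.pair h).1 ∈ X) → X = Set.univ := by
  constructor
  · intro hG
    refine ⟨hG.nonempty, fun X ⟨v, hv⟩ hX => ?_⟩
    refine Set.eq_univ_of_forall fun w => ?_
    obtain ⟨p⟩ := hG.preconnected v w
    induction p with
    | nil => exact hv
    | cons h p ih =>
      apply ih
      rw [skel_adj] at h
      obtain ⟨-, i, rfl⟩ := h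
      exact hX _ hv
  · rintro ⟨⟨v⟩, h⟩
    haveI : Nonempty (Fin n) := ⟨v⟩
    have key : ∀ u w, G.skel.Reachable u w := by
      intro u w
      have := h {x | G.skel.Reachable u x} ⟨u, SimpleGraph.Reachable.refl u⟩ ?_
      · exact (Set.eq_univ_iff_forall.1 this) w
      · rintro ⟨x, i⟩ hx
        by_cases hxy : x = (G.pair (x, i)).1
        · rw [← hxy]; exact hx
        · exact SimpleGraph.Reachable.trans hx
            (SimpleGraph.Adj.reachable ((skel_adj G _ _).2 ⟨hxy, i, rfl⟩))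
    exact ⟨key⟩

theorem conn_conj_of (G : TriGraph n) (hG : G.skel.Connected) (σ : Perm (HE n))
    (f : Perm (Fin n)) (h1 : ∀ h, (σ h).1 = f h.1) : (G.conj σ).skel.Connected := by
  rw [conn_iff] at hG ⊢
  refine ⟨hG.1, fun X hX hc => ?_⟩
  have h2 := hG.2 (f ⁻¹' X) ?_ ?_
  · rw [Set.preimage_eq_univ_iff, f.surjective.range_eq] at h2
    exact Set.univ_subset_iff.1 h2
  · obtain ⟨x, hx⟩ := hX
    exact ⟨f.symm x, by simpa using hx⟩
  · intro h hh
    have h3 := hc (σ h) (by rw [h1]; exact hh)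
    rw [pair_conj', h1] at h3
    exact h3

theorem conn_loc (G : TriGraph n) (hG : G.skel.Connected) (σ : Fin n → Perm (Fin 3)) :
    (G.conj (loc σ)).skel.Connected :=
  conn_conj_of G hG _ 1 fun h => by simp

theorem conn_vperm (G : TriGraph n) (hG : G.skel.Connected) (π : Perm (Fin n)) :
    (G.conj (vperm π)).skel.Connected :=
  conn_conj_of G hG _ π fun h => rfl

theorem conn_conj_edge (G : TriGraph n) (hG : G.skel.Connected) (σ : Perm (HE n)) (v w : Fin n)
    (h1 : ∀ h, (σ h).1 = h.1 ∨ (((σ h).1 = v ∨ (σ h).1 = w) ∧ (h.1 = v ∨ h.1 = w)))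
    (h2 : ∃ i, ((G.conj σ).pair (v, i)).1 = w) : (G.conj σ).skel.Connected := by
  rw [conn_iff] at hG ⊢
  refine ⟨hG.1, fun X hX hc => ?_⟩
  have hvw : v ∈ X ↔ w ∈ X := by
    obtain ⟨i, hi⟩ := h2
    constructor
    · intro hv
      rw [← hi]
      exact hc _ hv
    · intro hw
      have h3 := hc ((G.conj σ).pair (v, i)) (by rw [hi]; exact hw)
      rwa [(G.conj σ).invol] at h3
  have h4 : ∀ h, (σ h).1 ∈ X ↔ h.1 ∈ X := by
    intro h
    rcases h1 h with h5 | ⟨h5 | h5, h6 | h6⟩
    · rw [h5]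
    · rw [h5, h6]
    · rw [h5, h6, hvw]
    · rw [h5, h6, hvw]
    · rw [h5, h6]
  refine hG.2 X hX fun h hh => ?_
  have h3 := hc (σ h) ((h4 _).2 hh)
  rw [pair_conj', h4] at h3
  exact h3

/-! ### Packings of disjoint cycles -/

/-- `s` describes a family of disjoint cycles of the graph: the nontrivial cycles of the
permutation `s`, each vertex `v` of them being joined to `s v` by the edge leaving by the
half-edge `(v, o v)` and arriving by `(s v, a (s v))`. -/
def Pk (G : TriGraph n) (s : Perm (Fin n)) : Prop :=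
  ∃ o a : Fin n → Fin 3, ∀ v, s v ≠ v → o v ≠ a v ∧ G.pair (v, o v) = (s v, a (s v))

/-- The same with `o = 1` and `a = 2`. -/
def NPk (G : TriGraph n) (s : Perm (Fin n)) : Prop :=
  ∀ v, s v ≠ v → G.pair (v, 1) = (s v, 2)

theorem NPk.pk {G : TriGraph n} {s : Perm (Fin n)} (h : NPk G s) : Pk G s :=
  ⟨fun _ => 1, fun _ => 2, fun v hv => ⟨by simp, h v hv⟩⟩

theorem Pk_one (G : TriGraph n) : Pk G 1 :=
  ⟨fun _ => 1, fun _ => 2, fun v hv => (hv rfl).elim⟩

theorem exists_perm3 : ∀ i j : Fin 3, i ≠ j → ∃ τ : Perm (Fin 3), τ i = 1 ∧ τ j = 2 := by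
  decide

theorem Pk.normalise {G : TriGraph n} {s : Perm (Fin n)} (h : Pk G s) :
    ∃ σ : Fin n → Perm (Fin 3), NPk (G.conj (loc σ)) s := by
  classical
  obtain ⟨o, a, h⟩ := h
  choose τ hτ using exists_perm3
  refine ⟨fun v => if hv : s v ≠ v then τ (o v) (a v) (h v hv).1 else 1, fun v hv => ?_⟩
  have hv' : s (s v) ≠ s v := fun h' => hv (s.injective h')
  have h1 := (hτ (o v) (a v) (h v hv).1).1
  have h2 := (hτ (o (s v)) (a (s v)) (h (s v) hv').1).2
  have h3 : ((v, 1) : HE n) =
      loc (fun v => if hv : s v ≠ v then τ (o v) (a v) (h v hv).1 else 1) (v, o v) := by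
    simp [hv, h1]
  rw [h3, pair_conj', (h v hv).2]
  simp only [loc_apply]
  rw [dif_pos hv', h2]

theorem Pk.conj_loc {G : TriGraph n} {s : Perm (Fin n)} (h : Pk G s)
    (σ : Fin n → Perm (Fin 3)) : Pk (G.conj (loc σ)) s := by
  obtain ⟨o, a, h⟩ := h
  refine ⟨fun v => σ v (o v), fun v => σ v (a v), fun v hv => ⟨?_, ?_⟩⟩
  · exact fun h' => (h v hv).1 ((σ v).injective h')
  · have h3 : ((v, σ v (o v)) : HE n) = loc σ (v, o v) := rfl
    rw [h3, pair_conj', (h v hv).2]
    rfl

theorem Pk.of_conj_loc {G : TriGraph n} {s : Perm (Fin n)} {σ : Fin n → Perm (Fin 3)}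
    (h : Pk (G.conj (loc σ)) s) : Pk G s := by
  have h1 := h.conj_loc (fun v => (σ v)⁻¹)
  rw [← conj_mul] at h1
  have h2 : loc (fun v => (σ v)⁻¹) * loc σ = 1 := by
    ext x : 1
    simp
  rwa [h2, conj_one] at h1

theorem Pk.conj_vperm {G : TriGraph n} {s : Perm (Fin n)} (h : Pk G s) (π : Perm (Fin n)) :
    Pk (G.conj (vperm π)) (π * s * π⁻¹) := by
  obtain ⟨o, a, h⟩ := h
  refine ⟨fun v => o (π⁻¹ v), fun v => a (π⁻¹ v), fun v hv => ?_⟩
  obtain ⟨w, rfl⟩ := π.surjective v
  have hw : s w ≠ w := by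
    intro h'
    apply hv
    simp [h']
  refine ⟨by simpa using (h w hw).1, ?_⟩
  have h3 : ((π w, o (π⁻¹ (π w))) : HE n) = vperm π (w, o w) := by
    simp [vperm]
  rw [h3, pair_conj', (h w hw).2]
  simp [vperm]

theorem NPk.conj_vperm {G : TriGraph n} {s : Perm (Fin n)} (h : NPk G s) (π : Perm (Fin n)) :
    NPk (G.conj (vperm π)) (π * s * π⁻¹) := by
  intro v hv
  obtain ⟨w, rfl⟩ := π.surjective v
  have hw : s w ≠ w := by
    intro h'
    apply hv
    simp [h']
  have h3 : ((π w, 1) : HE n) = vperm π (w, 1) := by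
    simp [vperm]
  rw [h3, pair_conj', h w hw]
  simp [vperm]

/-- The cost of a packing: few cycles are costly, then long cycles. -/
def cost (s : Perm (Fin n)) : ℕ :=
  s.support.card + (n + 1) * (n - Multiset.card s.cycleType)

theorem cost_conj (s π : Perm (Fin n)) : cost (π * s * π⁻¹) = cost s := by
  unfold cost
  rw [Perm.cycleType_conj, Perm.card_support_conj]

/-- The span of the connected graphs with a packing of cost less than `t`. -/
noncomputable def U (n t : ℕ) : Submodule ℚ (A n) :=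
  Submodule.span ℚ {x | ∃ (G : TriGraph n) (s : Perm (Fin n)),
    G.skel.Connected ∧ Pk G s ∧ cost s < t ∧ x = cls G}

theorem mem_U {G : TriGraph n} {s : Perm (Fin n)} {t : ℕ} (hG : G.skel.Connected) (hs : Pk G s)
    (ht : cost s < t) : cls G ∈ U n t :=
  Submodule.subset_span ⟨G, s, hG, hs, ht, rfl⟩

theorem cost_shrink (s : Perm (Fin n)) (v : Fin n) (h1 : s v ≠ v) (h2 : s (s v) ≠ v) :
    cost (swap v (s v) * s) < cost s := by
  classical
  unfold cost
  have hc : s.cycleOf v ∈ s.cycleFactorsFinset :=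
    Perm.cycleOf_mem_cycleFactorsFinset_iff.2 (Perm.mem_support.2 h1)
  have hd := Perm.disjoint_mul_inv_of_mem_cycleFactorsFinset hc
  set c := s.cycleOf v with hcdef
  set r := s * c⁻¹ with hr
  have hs : s = r * c := by simp [hr]
  have hcv : c v = s v := Perm.cycleOf_apply_self s v
  have hccv : c (c v) = s (s v) := by
    rw [hcv]
    exact Perm.SameCycle.cycleOf_apply ⟨1, by simp⟩
  have hcyc : c.IsCycle := Perm.isCycle_cycleOf s h1
  have hcyc2 : (swap v (c v) * c).IsCycle := hcyc.swap_mul (by rw [hcv]; exact h1)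
    (by rw [hccv]; exact h2)
  have hvc : v ∈ c.support := by rw [Perm.mem_support, hcv]; exact h1
  have hcvc : c v ∈ c.support := Perm.apply_mem_support.2 hvc
  have hrv : r v = v := by
    rcases hd v with h | h
    · exact h
    · exact absurd h (Perm.mem_support.1 hvc)
  have hrcv : r (c v) = c v := by
    rcases hd (c v) with h | h
    · exact h
    · exact absurd h (Perm.mem_support.1 hcvc)
  have hcomm : swap v (c v) * r = r * swap v (c v) := by
    have := Perm.Disjoint.commute (f := swap v (c v)) (g := r) ?_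
    · exact this
    · intro x
      by_cases hx1 : x = v
      · right; rw [hx1]; exact hrv
      by_cases hx2 : x = c v
      · right; rw [hx2]; exact hrcv
      left
      exact swap_apply_of_ne_of_ne hx1 hx2
  have hs2 : swap v (s v) * s = r * (swap v (c v) * c) := by
    rw [← hcv]
    nth_rewrite 1 [hs]
    rw [← mul_assoc, hcomm, mul_assoc]
  have hd2 : Perm.Disjoint r (swap v (c v) * c) := by
    intro x
    rcases hd x with h | h
    · exact Or.inl h
    · right
      by_contra h3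
      exact (Perm.ne_and_ne_of_swap_mul_apply_ne_self h3).1 h
  have hlt := Perm.card_support_swap_mul (f := s) h1
  have hct : Multiset.card (swap v (s v) * s).cycleType = Multiset.card s.cycleType := by
    rw [hs2, hd2.cycleType_mul, Multiset.card_add, hcyc2.cycleType]
    conv_rhs => rw [hs, hd.cycleType_mul, Multiset.card_add, hcyc.cycleType]
    simp
  rw [hct]
  omega

/-- Swapping the legs of two consecutive vertices of a cycle of a packing changes the class by
an element of `U`. -/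
theorem swap_step (G : TriGraph n) (hG : G.skel.Connected) (s : Perm (Fin n)) (hs : NPk G s)
    (v : Fin n) (hv : s v ≠ v) :
    cls (G.conj (swap (v, 0) (s v, 0))) - cls G ∈ U n (cost s) := by
  set w := s v with hw
  have he : G.pair (v, 1) = (w, 2) := hs v hv
  have hvw : v ≠ w := fun h => hv h.symm
  have hihx := cls_ihx G hvw he
  have e1 : (1 : Fin 3) + 1 = 2 := rfl
  have e2 : (1 : Fin 3) + 2 = 0 := rfl
  have e3 : (2 : Fin 3) + 1 = 0 := rfl
  rw [e1, e2, e3] at hihx
  have h2 : cls (G.conj (cyc3 (v, 2) (v, 0) (w, 0))) = - cls (G.conj (swap (v, 0) (w, 0))) := by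
    unfold cyc3
    rw [conj_mul, cls_swap _ _ (by decide)]
  rw [h2] at hihx
  set ρ := cyc3 (v, 2) (v, 0) (w, 0) with hρ
  have h3 : cls (G.conj (swap (v, 0) (w, 0))) - cls G = cls (G.conj ρ⁻¹) := by
    rw [← sub_eq_zero]
    rw [← neg_eq_zero, ← hihx]
    abel
  rw [h3]
  have ne1 : ((v, 2) : HE n) ≠ (v, 0) := by simp
  have ne2 : ((v, 0) : HE n) ≠ (w, 0) := by simp [hvw]
  have ne3 : ((v, 2) : HE n) ≠ (w, 0) := by simp
  have r1 : ρ (v, 2) = (v, 0) := by
    rw [hρ, cyc3, Perm.mul_apply, swap_apply_of_ne_of_ne ne1 ne3, swap_apply_left]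
  have r2 : ρ (v, 0) = (w, 0) := by
    rw [hρ, cyc3, Perm.mul_apply, swap_apply_left, swap_apply_of_ne_of_ne ne3.symm ne2.symm]
  have r3 : ρ (w, 0) = (v, 2) := by
    rw [hρ, cyc3, Perm.mul_apply, swap_apply_right, swap_apply_right]
  have r4 : ∀ h : HE n, h ≠ (v, 2) → h ≠ (v, 0) → h ≠ (w, 0) → ρ h = h := by
    intro h a1 a2 a3
    rw [hρ, cyc3, Perm.mul_apply, swap_apply_of_ne_of_ne a2 a3, swap_apply_of_ne_of_ne a1 a2]
  have i1 : ρ⁻¹ (v, 0) = (v, 2) := by rw [Perm.inv_eq_iff_eq, r1]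
  have i2 : ρ⁻¹ (w, 0) = (v, 0) := by rw [Perm.inv_eq_iff_eq, r2]
  have i3 : ρ⁻¹ (v, 2) = (w, 0) := by rw [Perm.inv_eq_iff_eq, r3]
  have i4 : ∀ h : HE n, h ≠ (v, 2) → h ≠ (v, 0) → h ≠ (w, 0) → ρ⁻¹ h = h := by
    intro h a1 a2 a3
    rw [Perm.inv_eq_iff_eq, r4 h a1 a2 a3]
  have pc : ∀ h, (G.conj ρ⁻¹).pair h = ρ⁻¹ (G.pair (ρ h)) := by
    intro h
    rw [pair_conj, inv_inv]
  have hne1 : ∀ x : Fin n, ρ (x, 1) = (x, 1) := fun x => r4 _ (by simp) (by simp) (by simp)
  by_cases h2c : s w = v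
  · -- the leftover graph has a loop
    have hloop : (G.conj ρ⁻¹).pair (w, 1) = (w, 0) := by
      have hsw : s w ≠ w := by rw [h2c]; exact hvw
      rw [pc, hne1, hs w hsw, h2c, i3]
    rw [cls_loop _ hloop]
    exact Submodule.zero_mem _
  · have hsw : s w ≠ w := fun h => hv (s.injective (by rw [← hw]; exact h))
    refine mem_U (s := swap v w * s) ?_ ?_ (cost_shrink s v hv h2c)
    · -- connected
      refine conn_conj_edge G hG ρ⁻¹ v w ?_ ⟨1, ?_⟩
      · intro h
        by_cases a1 : h = (v, 2)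
        · right; rw [a1, i3]; simp
        by_cases a2 : h = (v, 0)
        · left; rw [a2, i1]
        by_cases a3 : h = (w, 0)
        · right; rw [a3, i2]; simp
        left
        rw [i4 h a1 a2 a3]
      · rw [pc, hne1, he, i4 _ (by simp [hvw.symm]) (by simp) (by simp)]
    · refine ⟨fun _ => 1, fun x => if x = w then 0 else 2, fun x hx => ⟨?_, ?_⟩⟩
      · dsimp only
        split_ifs <;> decide
      · have hxv : x ≠ v := by
          rintro rfl
          apply hx
          simp [hw]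
        rw [pc, hne1]
        by_cases hxu : s x = v
        · have hsx : s x ≠ x := by rw [hxu]; exact hxv.symm
          rw [hs x hsx, hxu, i3]
          simp [hxu]
        · have hxw : s x ≠ w := fun h => hxv (s.injective (by rw [h]))
          have hsx : s x ≠ x := by
            intro h
            apply hx
            rw [Perm.mul_apply, swap_apply_of_ne_of_ne hxu hxw, h]
          have e4 : (swap v w * s) x = s x := by
            rw [Perm.mul_apply, swap_apply_of_ne_of_ne hxu hxw]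
          rw [hs x hsx, i4 _ (by simp [hxu]) (by simp) (by simp), e4]
          simp [hxw]

end Pool.Agent.H46.Jac
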