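import Pool.Agent.H46.Jac.Defs

set_option autoImplicit false

open Equiv

namespace Pool.Agent.H46.Jac

variable {n : ℕ}

theorem pair_conj (G : TriGraph n) (σ : Perm (HE n)) (h : HE n) :
    (G.conj σ).pair h = σ (G.pair (σ⁻¹ h)) := rfl

theorem pair_conj' (G : TriGraph n) (σ : Perm (HE n)) (h : HE n) :
    (G.conj σ).pair (σ h) = σ (G.pair h) := by
  rw [pair_conj]; simp

theorem conj_mul (G : TriGraph n) (σ τ : Perm (HE n)) : G.conj (σ * τ) = (G.conj τ).conj σ := by
  ext h : 2
  simp [pair_conj]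

theorem conj_one (G : TriGraph n) : G.conj 1 = G := by
  ext h : 2
  simp [pair_conj]

theorem rel_mk {x : TriGraph n →₀ ℚ} (hx : IsRel n x) :
    (Submodule.Quotient.mk x : A n) = 0 :=
  (Submodule.Quotient.mk_eq_zero _).2 (Submodule.subset_span hx)

theorem mk_single (G : TriGraph n) (c : ℚ) :
    (Submodule.Quotient.mk (Finsupp.single G c) : A n) = c • cls G := by
  rw [cls, ← Submodule.Quotient.mk_smul]
  congr 1
  simp

theorem cls_vperm (G : TriGraph n) (π : Perm (Fin n)) : cls (G.conj (vperm π)) = cls G := by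
  have h := rel_mk (IsRel.relabel G π)
  rw [Submodule.Quotient.mk_sub, mk_single, mk_single, one_smul, one_smul, sub_eq_zero] at h
  exact h

theorem cls_slot (G : TriGraph n) (v : Fin n) (σ : Perm (Fin 3)) :
    cls (G.conj (slot v σ)) = (((Perm.sign σ : ℤˣ) : ℤ) : ℚ) • cls G := by
  have h := rel_mk (IsRel.reorient G v σ)
  rw [Submodule.Quotient.mk_sub, mk_single, mk_single, one_smul, sub_eq_zero] at h
  exact h

theorem cls_ihx (G : TriGraph n) {v w : Fin n} {i j : Fin 3} (hvw : v ≠ w)
    (he : G.pair (v, i) = (w, j)) :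
    cls G + cls (G.conj (cyc3 (v, i + 1) (v, i + 2) (w, j + 1))) +
      cls (G.conj (cyc3 (v, i + 1) (v, i + 2) (w, j + 1))⁻¹) = 0 := by
  have h := rel_mk (IsRel.ihx G v w i j hvw he)
  rw [Submodule.Quotient.mk_add, Submodule.Quotient.mk_add, mk_single, mk_single, mk_single,
    one_smul, one_smul, one_smul] at h
  exact h

theorem slot_swap (v : Fin n) (i j : Fin 3) : slot v (swap i j) = swap (v, i) (v, j) := by
  ext h : 1
  obtain ⟨w, k⟩ := h
  show (if w = v then (w, swap i j k) else (w, k)) = _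
  by_cases hw : w = v
  · subst hw
    by_cases h1 : k = i
    · subst h1; simp
    by_cases h2 : k = j
    · subst h2; simp
    rw [if_pos rfl, swap_apply_of_ne_of_ne h1 h2, swap_apply_of_ne_of_ne] <;> simp [h1, h2]
  · rw [if_neg hw, swap_apply_of_ne_of_ne] <;> simp [hw]

theorem cls_swap (G : TriGraph n) (v : Fin n) {i j : Fin 3} (hij : i ≠ j) :
    cls (G.conj (swap (v, i) (v, j))) = - cls G := by
  rw [← slot_swap, cls_slot, Perm.sign_swap hij]
  simp

/-- A graph with a loop vanishes. -/
theorem cls_loop (G : TriGraph n) {v : Fin n} {i j : Fin 3} (h : G.pair (v, i) = (v, j)) :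
    cls G = 0 := by
  have hij : i ≠ j := by
    rintro rfl
    exact G.fixfree _ h
  have h' : G.pair (v, j) = (v, i) := by rw [← h, G.invol]
  have hG : G.conj (swap (v, i) (v, j)) = G := by
    ext x : 2
    rw [pair_conj, swap_inv]
    by_cases h1 : x = (v, i)
    · subst h1; simp [h, h']
    by_cases h2 : x = (v, j)
    · subst h2; simp [h, h']
    rw [swap_apply_of_ne_of_ne h1 h2, swap_apply_of_ne_of_ne]
    · intro h3
      apply h2
      rw [← h, ← h3, G.invol]
    · intro h3
      apply h1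
      rw [← h', ← h3, G.invol]
  have h1 := cls_swap G v hij
  rw [hG] at h1
  have h2 : (2 : ℚ) • cls G = 0 := by
    rw [two_smul]
    nth_rewrite 1 [h1]
    simp
  simpa using h2

/-- Permuting the half-edges at every vertex. -/
def loc (σ : Fin n → Perm (Fin 3)) : Perm (HE n) where
  toFun h := (h.1, σ h.1 h.2)
  invFun h := (h.1, (σ h.1)⁻¹ h.2)
  left_inv h := by simp
  right_inv h := by simp

@[simp] theorem loc_apply (σ : Fin n → Perm (Fin 3)) (h : HE n) : loc σ h = (h.1, σ h.1 h.2) := rfl

@[simp] theorem loc_inv_apply (σ : Fin n → Perm (Fin 3)) (h : HE n) :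
    (loc σ)⁻¹ h = (h.1, (σ h.1)⁻¹ h.2) := rfl

theorem loc_one : loc (fun _ : Fin n => 1) = 1 := by
  ext h : 1
  simp

theorem slot_mul_loc (v : Fin n) (σ : Fin n → Perm (Fin 3)) (τ : Perm (Fin 3)) (h : σ v = 1) :
    slot v τ * loc σ = loc (Function.update σ v τ) := by
  ext x : 1
  obtain ⟨w, k⟩ := x
  show (if (loc σ (w, k)).1 = v then ((loc σ (w, k)).1, τ (loc σ (w, k)).2) else loc σ (w, k)) = _
  by_cases hw : w = v
  · subst hw
    simp [h]
  · simp [hw]

theorem cls_loc (σ : Fin n → Perm (Fin 3)) :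
    ∃ ε : ℚ, (ε = 1 ∨ ε = -1) ∧ ∀ G : TriGraph n, cls (G.conj (loc σ)) = ε • cls G := by
  classical
  have key : ∀ S : Finset (Fin n), ∃ ε : ℚ, (ε = 1 ∨ ε = -1) ∧
      ∀ G : TriGraph n, cls (G.conj (loc (fun v => if v ∈ S then σ v else 1))) = ε • cls G := by
    intro S
    induction S using Finset.induction_on with
    | empty =>
      refine ⟨1, Or.inl rfl, fun G => ?_⟩
      simp only [Finset.notMem_empty, if_false]
      rw [loc_one, conj_one, one_smul]
    | insert v S hv ih =>
      obtain ⟨ε, hε, h⟩ := ih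
      refine ⟨(((Perm.sign (σ v) : ℤˣ) : ℤ) : ℚ) * ε, ?_, fun G => ?_⟩
      · rcases Int.units_eq_one_or (Perm.sign (σ v)) with h1 | h1 <;> rcases hε with h2 | h2 <;>
          simp [h1, h2]
      · have hl : loc (fun w => if w ∈ insert v S then σ w else 1) =
            slot v (σ v) * loc (fun w => if w ∈ S then σ w else 1) := by
          rw [slot_mul_loc _ _ _ (by simp [hv])]
          congr 1
          funext w
          by_cases hw : w = v
          · subst hw; simp
          · simp [Function.update_of_ne hw, hw]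
        rw [hl, conj_mul, cls_slot, h, smul_smul]
  obtain ⟨ε, hε, h⟩ := key Finset.univ
  exact ⟨ε, hε, fun G => by simpa using h G⟩

end Pool.Agent.H46.Jac
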