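import Pool.Agent.H46.Jac.Count

set_option autoImplicit false

open Equiv

namespace Pool.Agent.H46.Jac

/-- The code `c` comes from the class `x`. -/
def HasCode (d : ℕ) (c : Code (2 * d)) (x : A (2 * d)) : Prop :=
  ∃ (G : TriGraph (2 * d)) (s : Perm (Fin (2 * d))) (cl : Fin (2 * d) → Prop)
    (up : Fin (2 * d) → Fin 3) (r : Fin (2 * d)),
      LabN G s cl up r ∧ codeOf G s cl up r = c ∧ x = cls G

open Classical in
/-- A class with a given code. -/
noncomputable def rep (d : ℕ) (c : Code (2 * d)) : A (2 * d) :=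
  if h : ∃ x, HasCode d c x then h.choose else 0

theorem cls_mem_span (d : ℕ) : ∀ (k : ℕ) (G : TriGraph (2 * d)) (s : Perm (Fin (2 * d))),
    G.skel.Connected → Pk G s → cost s = k →
      cls G ∈ Submodule.span ℚ (rep d '' (codes d : Set (Code (2 * d)))) := by
  classical
  intro k
  induction k using Nat.strong_induction_on with
  | _ k ih =>
    intro G s hG hs hk
    set W := Submodule.span ℚ (rep d '' (codes d : Set (Code (2 * d)))) with hW
    by_cases hopt : ∀ s', Pk G s' → cost s ≤ cost s'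
    swap
    · push Not at hopt
      obtain ⟨s', hs', hlt⟩ := hopt
      exact ih (cost s') (by omega) G s' hG hs' rfl
    by_cases hloop : ∃ v i j, G.pair (v, i) = (v, j)
    · obtain ⟨v, i, j, h⟩ := hloop
      rw [cls_loop G h]
      exact Submodule.zero_mem _
    push Not at hloop
    obtain ⟨σ, hσ⟩ := hs.normalise
    obtain ⟨ε, hε, hcls⟩ := cls_loc σ
    set G1 := G.conj (loc σ) with hG1
    have hG1c : G1.skel.Connected := conn_loc G hG σ
    have hloop1 : ∀ v i j, G1.pair (v, i) ≠ (v, j) := by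
      intro v i j h
      have h1 : ((v, i) : HE (2 * d)) = loc σ (v, (σ v)⁻¹ i) := by simp
      have h2 : ((v, j) : HE (2 * d)) = loc σ (v, (σ v)⁻¹ j) := by simp
      rw [h1, h2, hG1, pair_conj'] at h
      exact hloop _ _ _ ((loc σ).injective h)
    have hopt1 : ∀ s', Pk G1 s' → cost s ≤ cost s' := fun s' h => hopt s' h.of_conj_loc
    obtain ⟨cl, up, r, N, L⟩ := exists_lab G1 hG1c hloop1 s hσ hopt1
    obtain ⟨e, he⟩ := exists_rank N L.inj
    have L' := L.transport e he
    set G2 := G1.conj (vperm e) with hG2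
    set s2 := e * s * e⁻¹ with hs2
    have hcost2 : cost s2 = k := by rw [hs2, cost_conj, hk]
    have hmem := codeOf_mem L'
    have hreal : ∃ x, HasCode d (codeOf G2 s2 (fun v => cl (e⁻¹ v)) (fun v => up (e⁻¹ v)) (e r)) x :=
      ⟨cls G2, G2, s2, _, _, _, L', rfl, rfl⟩
    have hrep : rep d (codeOf G2 s2 (fun v => cl (e⁻¹ v)) (fun v => up (e⁻¹ v)) (e r)) ∈ W :=
      Submodule.subset_span ⟨_, hmem, rfl⟩
    have hrep2 : HasCode d (codeOf G2 s2 (fun v => cl (e⁻¹ v)) (fun v => up (e⁻¹ v)) (e r))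
        (rep d (codeOf G2 s2 (fun v => cl (e⁻¹ v)) (fun v => up (e⁻¹ v)) (e r))) := by
      unfold rep
      rw [dif_pos hreal]
      exact hreal.choose_spec
    obtain ⟨G3, s3, cl3, up3, r3, L3, hc3, hx3⟩ := hrep2
    rw [hx3] at hrep
    obtain ⟨hs3, π, hπ, hG3⟩ := decode_code L' L3 hc3.symm
    have hgood := Good.of_sameCycle s2 _ π le_rfl hπ G2 L'.conn L'.npk
    rw [← hG3, hcost2] at hgood
    have hU : U (2 * d) k ≤ W := by
      unfold U
      rw [Submodule.span_le]
      rintro x ⟨G4, s4, h1, h2, h3, rfl⟩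
      exact ih _ h3 G4 s4 h1 h2 rfl
    have h4 : cls G2 ∈ W := by
      have h5 := Submodule.sub_mem _ hrep (hU hgood.2.2)
      rwa [sub_sub_cancel] at h5
    have h6 : cls G1 ∈ W := by
      rw [← cls_vperm G1 e]
      exact h4
    rw [hG1, hcls] at h6
    have h7 : cls G = ε • (ε • cls G) := by
      rw [smul_smul]
      rcases hε with h | h <;> simp [h]
    rw [h7]
    exact Submodule.smul_mem _ _ h6

theorem aDim_le (d : ℕ) : aDim d ≤ 48 ^ (2 * d) * maxPow d := by
  classical
  have h1 : Aconn d ≤ Submodule.span ℚ ((codes d).image (rep d) : Set (A (2 * d))) := by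
    rw [Finset.coe_image]
    unfold Aconn
    rw [Submodule.span_le]
    rintro x ⟨G, hG, rfl⟩
    exact cls_mem_span d _ G 1 hG (Pk_one G) rfl
  have h2 : Module.Finite ℚ (Submodule.span ℚ ((codes d).image (rep d) : Set (A (2 * d)))) :=
    Module.Finite.span_finset ℚ _
  have h3 : aDim d ≤ Module.finrank ℚ
      (Submodule.span ℚ ((codes d).image (rep d) : Set (A (2 * d)))) :=
    Submodule.finrank_mono h1
  refine h3.trans ((finrank_span_finset_le_card _).trans ?_)
  exact Finset.card_image_le.trans (card_codes d)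

end Pool.Agent.H46.Jac
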