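import Pool.Agent.H46.Jac.Opt

set_option autoImplicit false

open Equiv

namespace Pool.Agent.H46.Jac

variable {n : ℕ}

/-- A graph in which every nonempty vertex set has a vertex with at most one neighbour in the set
is acyclic. -/
theorem isAcyclic_of_low (K : SimpleGraph (Fin n))
    (h : ∀ X : Finset (Fin n), X.Nonempty → ∃ v ∈ X, ∀ u ∈ X, ∀ w ∈ X, K.Adj v u → K.Adj v w →
      u = w) : K.IsAcyclic := by
  classical
  rw [SimpleGraph.isAcyclic_iff_free_cycleGraph]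
  rintro m hm ⟨f⟩
  obtain ⟨k, rfl⟩ : ∃ k, m = k + 3 := ⟨m - 3, by omega⟩
  obtain ⟨v, hv, hvu⟩ := h (Finset.univ.image f.toHom) ⟨f.toHom 0, by simp⟩
  obtain ⟨i, -, rfl⟩ := Finset.mem_image.1 hv
  have h1 : (SimpleGraph.cycleGraph (k + 1 + 2)).Adj i (i + 1) := by
    rw [SimpleGraph.cycleGraph_adj]; right; simp
  have h2 : (SimpleGraph.cycleGraph (k + 1 + 2)).Adj i (i - 1) := by
    rw [SimpleGraph.cycleGraph_adj]; left; simp
  have h3 := hvu (f.toHom (i + 1)) (by simp) (f.toHom (i - 1)) (by simp) (f.toHom.map_adj h1)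
    (f.toHom.map_adj h2)
  have h4 : i + 1 = i - 1 := f.injective' h3
  have h5 : (1 : Fin (k + 3)) + 1 = 0 := by
    have : i + (1 + 1) = i + 0 := by
      rw [← add_assoc, h4]; simp
    exact add_left_cancel this
  have h6 := congrArg Fin.val h5
  rw [Fin.val_add] at h6
  simp at h6
  rw [Nat.mod_eq_of_lt (by omega)] at h6
  omega

/-- `cl` selects exactly one vertex on every nontrivial cycle of `s`. -/
structure Closing (s : Perm (Fin n)) (cl : Fin n → Prop) : Prop where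
  ne : ∀ c, cl c → s c ≠ c
  ex : ∀ x, s x ≠ x → ∃ c, s.SameCycle x c ∧ cl c
  uniq : ∀ c c', cl c → cl c' → s.SameCycle c c' → c = c'

theorem exists_closing (s : Perm (Fin n)) : ∃ cl : Fin n → Prop, Closing s cl := by
  classical
  refine ⟨fun v => s v ≠ v ∧ ∀ w, s.SameCycle v w → v ≤ w, ⟨fun c hc => hc.1, fun x hx => ?_,
    fun c c' hc hc' h => le_antisymm (hc.2 _ h) (hc'.2 _ h.symm)⟩⟩
  obtain ⟨c, hc, hmin⟩ := (Finset.univ.filter (fun w => s.SameCycle x w)).exists_minimal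
    ⟨x, Finset.mem_filter.2 ⟨Finset.mem_univ _, Perm.SameCycle.refl s x⟩⟩
  rw [Finset.mem_filter] at hc
  refine ⟨c, hc.2, ?_, fun w hw => ?_⟩
  · intro h
    exact hx ((hc.2.apply_eq_self_iff).2 h)
  · by_contra hlt
    have h2 := hmin (Finset.mem_filter.2 ⟨Finset.mem_univ _, hc.2.trans hw⟩)
      (le_of_lt (not_le.1 hlt))
    exact hlt h2

/-- The graph formed by the edges outside the packing, and by all the edges of the packing but
one for each cycle. -/
def KG (G : TriGraph n) (s : Perm (Fin n)) (cl : Fin n → Prop) : SimpleGraph (Fin n) where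
  Adj v w := v ≠ w ∧ ((s v = v ∧ s w = w ∧ ∃ i, (G.pair (v, i)).1 = w) ∨
    (¬ cl v ∧ w = s v) ∨ (¬ cl w ∧ v = s w))
  symm := ⟨fun v w ⟨h, h1⟩ => by
    refine ⟨h.symm, ?_⟩
    rcases h1 with ⟨a, b, i, hi⟩ | h1 | h1
    · left
      refine ⟨b, a, (G.pair (v, i)).2, ?_⟩
      have : (w, (G.pair (v, i)).2) = G.pair (v, i) := by rw [← hi]
      rw [this, G.invol]
    · exact Or.inr (Or.inr h1)
    · exact Or.inr (Or.inl h1)⟩
  loopless := ⟨fun v h => h.1 rfl⟩

theorem KG_le (G : TriGraph n) (s : Perm (Fin n)) (hs : NPk G s) (cl : Fin n → Prop) :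
    KG G s cl ≤ G.skel := by
  intro v w h
  rw [skel_adj]
  obtain ⟨hne, h | ⟨h1, rfl⟩ | ⟨h1, rfl⟩⟩ := h
  · exact ⟨hne, h.2.2⟩
  · exact ⟨hne, 1, by rw [hs v hne.symm]⟩
  · refine ⟨hne, 2, ?_⟩
    rw [← hs w hne, G.invol]

theorem KG_acyclic (G : TriGraph n) (hl : ∀ v i j, G.pair (v, i) ≠ (v, j)) (s : Perm (Fin n))
    (hs : NPk G s) (hopt : ∀ s', Pk G s' → cost s ≤ cost s') (cl : Fin n → Prop)
    (hcl : Closing s cl) : (KG G s cl).IsAcyclic := by
  classical
  refine isAcyclic_of_low _ fun X hX => ?_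
  by_cases hU : ∃ v ∈ X, s v = v
  · obtain ⟨v0, hv0, hsv0⟩ := hU
    obtain ⟨v, hv, hlow⟩ := exists_low G hl s hs.pk hopt (X.filter (fun v => s v = v))
      ⟨v0, Finset.mem_filter.2 ⟨hv0, hsv0⟩⟩ (fun v hv => (Finset.mem_filter.1 hv).2)
    rw [Finset.mem_filter] at hv
    have key : ∀ u ∈ X, (KG G s cl).Adj v u →
        (u ∈ X.filter (fun v => s v = v)) ∧ ∃ i, (G.pair (v, i)).1 = u := by
      intro u hu h
      obtain ⟨hne, h | ⟨h1, h2⟩ | ⟨h1, h2⟩⟩ := h
      · exact ⟨Finset.mem_filter.2 ⟨hu, h.2.1⟩, h.2.2⟩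
      · exact absurd (h2.trans hv.2).symm hne
      · have : s (s u) = s u := by rw [← h2, hv.2]
        exact absurd (h2.trans (s.injective this)) hne
    refine ⟨v, hv.1, fun u hu w hw hvu hvw => ?_⟩
    obtain ⟨hu', i, hi⟩ := key u hu hvu
    obtain ⟨hw', j, hj⟩ := key w hw hvw
    have := hlow i j (by rw [hi]; exact hu') (by rw [hj]; exact hw')
    rw [← hi, ← hj, this]
  · push Not at hU
    by_contra hcon
    push Not at hcon
    have hstep : ∀ v ∈ X, ¬ cl v ∧ s v ∈ X := by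
      intro v hv
      obtain ⟨u, hu, w, hw, h1, h2, hne⟩ := hcon v hv
      have key : ∀ u ∈ X, (KG G s cl).Adj v u → (¬ cl v ∧ u = s v) ∨ v = s u := by
        intro u hu h
        obtain ⟨-, h | h | h⟩ := h
        · exact absurd h.1 (hU v hv)
        · exact Or.inl h
        · exact Or.inr h.2
      rcases key u hu h1 with ⟨a, b⟩ | a
      · exact ⟨a, b ▸ hu⟩
      · rcases key w hw h2 with ⟨c, d⟩ | c
        · exact ⟨c, d ▸ hw⟩
        · exact absurd (s.injective (a.symm.trans c)) hne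
    obtain ⟨x, hx⟩ := hX
    obtain ⟨c, hxc, hc⟩ := hcl.ex x (hU x hx)
    obtain ⟨i, -, rfl⟩ := hxc.exists_pow_eq'
    have hmem : ∀ i : ℕ, (s ^ i) x ∈ X := by
      intro i
      induction i with
      | zero => simpa using hx
      | succ i ih =>
        rw [pow_succ', Perm.mul_apply]
        exact (hstep _ ih).2
    exact (hstep _ (hmem i)).1 hc

end Pool.Agent.H46.Jac
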